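import Pool.Agent.Helper12.GM.Stmts

/-!
# Library: the action of a Fuchsian representation, length function
-/

open scoped ENNReal UpperHalfPlane MatrixGroups Topology
open UpperHalfPlane Real Filter

namespace Pool.Agent.Helper12.GM

variable {Γ : Type} [Group Γ]

theorem neg_smul_H (A : SL(2, ℝ)) (z : ℍ) : (-A) • z = A • z := by
  ext
  rw [coe_specialLinearGroup_apply, coe_specialLinearGroup_apply]
  simp only [Matrix.SpecialLinearGroup.coe_neg, Matrix.neg_apply, map_neg, Complex.ofReal_neg]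
  rw [← neg_div_neg_eq]
  congr 1 <;> simp <;> ring

theorem Fuchs.act (X : Fuchs Γ) (g h : Γ) (z : ℍ) : X.M (g * h) • z = X.M g • X.M h • z := by
  rcases X.mul' g h with h1 | h1
  · rw [h1, mul_smul]
  · rw [h1, neg_smul_H, mul_smul]

theorem Fuchs.act_one (X : Fuchs Γ) (z : ℍ) : X.M 1 • z = z := by
  have h := X.act 1 1 z
  rw [mul_one] at h
  exact (MulAction.injective (X.M 1) h).symm

theorem Fuchs.act_inv (X : Fuchs Γ) (g : Γ) (z : ℍ) : X.M g⁻¹ • X.M g • z = z := by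
  rw [← X.act, inv_mul_cancel, X.act_one]

theorem Fuchs.act_inv' (X : Fuchs Γ) (g : Γ) (z : ℍ) : X.M g • X.M g⁻¹ • z = z := by
  rw [← X.act, mul_inv_cancel, X.act_one]

theorem Fuchs.M_one (X : Fuchs Γ) : X.M 1 = 1 ∨ X.M 1 = -1 := by
  rcases X.mul' 1 1 with h | h
  · left
    rw [mul_one] at h
    exact (mul_eq_left.mp h.symm)
  · right
    rw [mul_one] at h
    have h2 : X.M 1 * X.M 1 = -X.M 1 := by
      rw [← neg_neg (X.M 1 * X.M 1), ← h]
    have h3 : X.M 1 * X.M 1 = X.M 1 * (-1) := by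
      rw [h2, mul_neg, mul_one]
    exact mul_left_cancel h3

theorem Fuchs.M_inv (X : Fuchs Γ) (g : Γ) : X.M g⁻¹ = (X.M g)⁻¹ ∨ X.M g⁻¹ = -(X.M g)⁻¹ := by
  have key : X.M g⁻¹ * X.M g = 1 ∨ X.M g⁻¹ * X.M g = -1 := by
    rcases X.mul' g⁻¹ g with h | h <;> rcases X.M_one with h1 | h1 <;>
      rw [inv_mul_cancel, h1] at h
    · exact Or.inl h.symm
    · exact Or.inr h.symm
    · right; rw [h, neg_neg]
    · left; rw [← neg_neg (X.M g⁻¹ * X.M g), ← h, neg_neg]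
  rcases key with h | h
  · left; exact eq_inv_of_mul_eq_one_left h
  · right
    rw [← neg_eq_iff_eq_neg]
    refine eq_inv_of_mul_eq_one_left ?_
    rw [neg_mul, h, neg_neg]

theorem Fuchs.M_pow (X : Fuchs Γ) (g : Γ) (n : ℕ) :
    X.M (g ^ n) = X.M g ^ n ∨ X.M (g ^ n) = -X.M g ^ n := by
  induction n with
  | zero => simpa using X.M_one
  | succ n ih =>
    rw [pow_succ, pow_succ]
    rcases X.mul' (g ^ n) g with h | h <;> rcases ih with h1 | h1 <;> rw [h, h1]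
    · exact Or.inl rfl
    · right; rw [neg_mul]
    · exact Or.inr rfl
    · left; rw [neg_mul, neg_neg]

/-- isometry -/
theorem dist_smul_H (A : SL(2, ℝ)) (z w : ℍ) : dist (A • z) (A • w) = dist z w := dist_smul A z w

theorem Fuchs.dist_orbit (X : Fuchs Γ) (x y : Γ) :
    dist (X.M x • (I : ℍ)) (X.M y • (I : ℍ)) = X.L (x⁻¹ * y) := by
  unfold Fuchs.L
  rw [X.act, ← dist_smul_H (X.M x) I, X.act_inv']

theorem Fuchs.L_nonneg (X : Fuchs Γ) (g : Γ) : 0 ≤ X.L g := dist_nonneg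

theorem Fuchs.L_one (X : Fuchs Γ) : X.L 1 = 0 := by
  unfold Fuchs.L; rw [X.act_one, dist_self]

theorem Fuchs.L_inv (X : Fuchs Γ) (g : Γ) : X.L g⁻¹ = X.L g := by
  have h := X.dist_orbit g 1
  rw [mul_one, X.act_one, dist_comm] at h
  exact h.symm

theorem Fuchs.L_mul (X : Fuchs Γ) (g h : Γ) : X.L (g * h) ≤ X.L g + X.L h := by
  have h1 := X.dist_orbit g⁻¹ h
  rw [inv_inv] at h1
  rw [← h1]
  have h2 := dist_triangle (X.M g⁻¹ • (I : ℍ)) I (X.M h • (I : ℍ))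
  have h3 : dist (X.M g⁻¹ • (I : ℍ)) I = X.L g := by
    rw [dist_comm]; exact X.L_inv g
  rw [h3] at h2
  exact h2

theorem Fuchs.countable (X : Fuchs Γ) : Countable Γ := by
  have : (Set.univ : Set Γ) = ⋃ n : ℕ, {g | X.L g ≤ n} := by
    ext g
    simp only [Set.mem_univ, Set.mem_iUnion, Set.mem_ofPred_eq, true_iff]
    exact exists_nat_ge (X.L g)
  rw [← Set.countable_univ_iff, this]
  exact Set.countable_iUnion fun n => (X.disc n).countable

theorem sl_den_pos (A : SL(2, ℝ)) (z : ℍ) :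
    0 < (A.1 1 0 * z.re + A.1 1 1) ^ 2 + (A.1 1 0 * z.im) ^ 2 := by
  have hz := z.im_pos
  have hdet := A.det_coe
  rw [Matrix.det_fin_two] at hdet
  by_cases h : A.1 1 0 = 0
  · have h2 : A.1 1 1 ≠ 0 := by
      intro h3; rw [h, h3] at hdet; simp at hdet
    have h3 : 0 < A.1 1 1 ^ 2 := by positivity
    rw [h]
    simpa using h3
  · have h1 : 0 < (A.1 1 0 * z.im) ^ 2 := by positivity
    have h2 : 0 ≤ (A.1 1 0 * z.re + A.1 1 1) ^ 2 := sq_nonneg _
    linarith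

/-- action of a matrix in coordinates -/
theorem sl_im (A : SL(2, ℝ)) (z : ℍ) :
    (A • z).im = z.im / ((A.1 1 0 * z.re + A.1 1 1) ^ 2 + (A.1 1 0 * z.im) ^ 2) := by
  rw [← UpperHalfPlane.coe_im, coe_specialLinearGroup_apply, Complex.div_im]
  simp only [Complex.normSq_apply]
  have hz := z.im_pos
  have hdet := A.det_coe
  rw [Matrix.det_fin_two] at hdet
  have hpos := sl_den_pos A z
  have e : ∀ a b : ℝ, (A.1 1 0 * z.re + A.1 1 1) * (A.1 1 0 * z.re + A.1 1 1) +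
      A.1 1 0 * z.im * (A.1 1 0 * z.im) = (A.1 1 0 * z.re + A.1 1 1) ^ 2 + (A.1 1 0 * z.im) ^ 2 := by
    intro _ _; ring
  simp
  rw [e 0 0, ← sub_div]
  congr 1
  linear_combination z.im * hdet

theorem sl_re (A : SL(2, ℝ)) (z : ℍ) :
    (A • z).re = (A.1 0 0 * A.1 1 0 * (z.re ^ 2 + z.im ^ 2) +
      (A.1 0 0 * A.1 1 1 + A.1 0 1 * A.1 1 0) * z.re + A.1 0 1 * A.1 1 1) /
      ((A.1 1 0 * z.re + A.1 1 1) ^ 2 + (A.1 1 0 * z.im) ^ 2) := by
  rw [← UpperHalfPlane.coe_re, coe_specialLinearGroup_apply, Complex.div_re]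
  simp only [Complex.normSq_apply]
  have hz := z.im_pos
  have hdet := A.det_coe
  rw [Matrix.det_fin_two] at hdet
  have hpos := sl_den_pos A z
  have e : ∀ a b : ℝ, (A.1 1 0 * z.re + A.1 1 1) * (A.1 1 0 * z.re + A.1 1 1) +
      A.1 1 0 * z.im * (A.1 1 0 * z.im) = (A.1 1 0 * z.re + A.1 1 1) ^ 2 + (A.1 1 0 * z.im) ^ 2 := by
    intro _ _; ring
  simp
  rw [e 0 0, ← add_div]
  congr 1
  ring

end Pool.Agent.Helper12.GM
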