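import Pool.Agent.Helper12.GM.Lib
import Pool.Agent.Helper12.GM.LibF

open scoped ENNReal UpperHalfPlane MatrixGroups Topology
open UpperHalfPlane Real Filter

namespace Pool.Agent.Helper12.GM

theorem afin_mem (hcinv : ST_CINV) {Γ : Type} [Group Γ] (X : NFuchs Γ) (κ : ℝ) (k : ℤ)
    (x : Bnd X.toFuchs κ) : X.c ^ k * (x : Γ) ∈ Bnd X.toFuchs κ :=
  ((hcinv X κ k x).2.2.2.2).mpr x.2

/-- the shift -/
def afin_sh (hcinv : ST_CINV) {Γ : Type} [Group Γ] (X : NFuchs Γ) (κ : ℝ) (k : ℤ)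
    (x : Bnd X.toFuchs κ) : Bnd X.toFuchs κ := ⟨X.c ^ k * (x : Γ), afin_mem hcinv X κ k x⟩

theorem afin_sh_zero (hcinv : ST_CINV) {Γ : Type} [Group Γ] (X : NFuchs Γ) (κ : ℝ)
    (x : Bnd X.toFuchs κ) : afin_sh hcinv X κ 0 x = x := by
  apply Subtype.ext; simp [afin_sh]

theorem afin_sh_add (hcinv : ST_CINV) {Γ : Type} [Group Γ] (X : NFuchs Γ) (κ : ℝ) (k l : ℤ)
    (x : Bnd X.toFuchs κ) :
    afin_sh hcinv X κ (k + l) x = afin_sh hcinv X κ k (afin_sh hcinv X κ l x) := by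
  apply Subtype.ext; simp only [afin_sh]; rw [zpow_add, mul_assoc]

/-- the shift as an equivalence -/
def afin_eq (hcinv : ST_CINV) {Γ : Type} [Group Γ] (X : NFuchs Γ) (κ : ℝ) (k : ℤ) :
    Bnd X.toFuchs κ ≃ Bnd X.toFuchs κ where
  toFun := afin_sh hcinv X κ k
  invFun := afin_sh hcinv X κ (-k)
  left_inv x := by rw [← afin_sh_add, neg_add_cancel, afin_sh_zero]
  right_inv x := by rw [← afin_sh_add, add_neg_cancel, afin_sh_zero]

theorem afin_conj_pow {Γ : Type} [Group Γ] (c a : Γ) (k : ℤ) (n : ℕ) :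
    (c ^ k * a * c ^ (-k)) ^ n = c ^ k * a ^ n * c ^ (-k) := by
  rw [zpow_neg]; exact conj_pow

/-- PF data of the shifted element -/
theorem afin_shift (hcinv : ST_CINV) (hshift : ST_SHIFT) {Γ : Type} [Group Γ] (X : NFuchs Γ)
    (μ : PMF Γ) (κ : ℝ) (a : Γ) (k : ℤ) {ρ : ℝ} {v w : Bnd X.toFuchs κ → ℝ}
    (h : PFD (fun n => kr X.toFuchs μ κ (a ^ n)) ρ v w) :
    PFD (fun n => kr X.toFuchs μ κ ((X.c ^ k * a * X.c ^ (-k)) ^ n)) ρ
      (fun x => v (afin_sh hcinv X κ (-k) x)) (fun x => w (afin_sh hcinv X κ (-k) x)) where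
  ρpos := h.ρpos
  vpos x := h.vpos _
  vbd := by obtain ⟨C, hC⟩ := h.vbd; exact ⟨C, fun x => hC _⟩
  wnn x := h.wnn _
  wsum := (afin_eq hcinv X κ (-k)).summable_iff.mpr h.wsum
  nrm := by
    rw [← h.nrm]
    exact (afin_eq hcinv X κ (-k)).tsum_eq (fun x => w x * v x)
  asy := by
    obtain ⟨C, θ, h1, h2, h3, h4⟩ := h.asy
    refine ⟨C, θ, h1, h2, h3, fun n hn x y => ?_⟩
    have e : kr X.toFuchs μ κ ((X.c ^ k * a * X.c ^ (-k)) ^ n) x y =
        kr X.toFuchs μ κ (a ^ n) (afin_sh hcinv X κ (-k) x) (afin_sh hcinv X κ (-k) y) := by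
      rw [afin_conj_pow]
      apply hshift
      · simp only [afin_sh]; rw [← mul_assoc, ← zpow_add, add_neg_cancel, zpow_zero, one_mul]
      · simp only [afin_sh]; rw [← mul_assoc, ← zpow_add, add_neg_cancel, zpow_zero, one_mul]
    show |kr X.toFuchs μ κ ((X.c ^ k * a * X.c ^ (-k)) ^ n) x y - _| ≤ _
    rw [e]
    exact h4 n hn _ _

theorem afin_summable {ι : Type} {w v : ι → ℝ} (hw : ∀ x, 0 ≤ w x) (hws : Summable w)
    (hv : ∀ x, 0 < v x) {C : ℝ} (hvC : ∀ x, v x ≤ C) : Summable fun x => w x * v x := by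
  refine Summable.of_nonneg_of_le (fun x => mul_nonneg (hw x) (hv x).le)
    (fun x => mul_le_mul_of_nonneg_left (hvC x) (hw x)) (hws.mul_right C)

theorem afin_orb (hcinv : ST_CINV) (hforb : ST_FORB) {Γ : Type} [Group Γ] (X : NFuchs Γ) (κ : ℝ)
    (hκ : 0 ≤ κ) : ∃ T : Finset (Bnd X.toFuchs κ), ∀ x, ∃ t ∈ T, ∃ k,
      x = afin_sh hcinv X κ k t := by
  classical
  obtain ⟨⟨T₀, hT1, hT2⟩, -⟩ := hforb X κ hκ
  have hfin : Set.Finite {y : Bnd X.toFuchs κ | (y : Γ) ∈ T₀} :=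
    Set.Finite.preimage Subtype.val_injective.injOn (T₀.finite_toSet)
  refine ⟨hfin.toFinset, fun x => ?_⟩
  obtain ⟨t, ht, k, hk⟩ := hT2 x x.2
  refine ⟨⟨t, hT1 t ht⟩, ?_, k, ?_⟩
  · rw [Set.Finite.mem_toFinset]
    exact ht
  · apply Subtype.ext
    simp only [afin_sh]
    exact hk

theorem st_AFIN (hdom : ST_DOM) (hcmp : ST_CMP) (hmult : ST_MULT) (hpf : ST_PF)
    (hfix : ST_FIX) (hden : ST_DEN) (hshift : ST_SHIFT) (hcinv : ST_CINV) (hsemi : ST_SEMI)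
    (hcyc : ST_CYC) (hrnk : ST_RNK) (hsumm : ST_SUMM) (hforb : ST_FORB) (hkper : ST_KPER) :
    ST_AFIN := by
  intro Γ _ X Q μ K hL hW hu
  obtain ⟨κ, κ₂, Θ, hD⟩ := hdom X Q μ K hL hW
  have hΘ := hD.Θ0
  -- PF data
  have hPFD : ∀ a ∈ Pos X.toFuchs Θ, ∃ ρ v w, PFD (fun n => kr X.toFuchs μ κ (a ^ n)) ρ v w := by
    intro a ha
    apply hpf
    · have := hcmp X Q μ K κ κ₂ Θ hD a ha
      simpa using this
    · intro m n hm hn x z
      have := (hmult X Q μ K κ κ₂ Θ hD (a ^ m) ((hfix X Θ hΘ a ha).2.2.2 m hm)).1 (a ^ n)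
        ((hfix X Θ hΘ a ha).2.2.2 n hn) x z
      rw [← pow_add] at this
      exact this
  choose! ρ v w hPF using hPFD
  obtain ⟨hden1, hden2⟩ := hden X Θ hΘ
  obtain ⟨s₀, a₀, ha₀, -⟩ := hden1.nonempty
  set A : Type := {a : Γ // a ∈ Pos X.toFuchs Θ} with hA
  have hne : Nonempty A := ⟨⟨a₀, ha₀⟩⟩
  have hΛ : 1 < X.lam ^ 2 := by nlinarith [X.one_lt]
  have hΛ0 : X.lam ^ 2 ≠ 0 := by positivity
  let sh := afin_sh hcinv X κ
  have hv : ∀ a : A, ∀ x, 0 < v a x := fun a => (hPF a a.2).vpos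
  have hw : ∀ a : A, ∀ x, 0 ≤ w a x := fun a => (hPF a a.2).wnn
  have hsum : ∀ (a b : A) (k : ℤ), Summable fun x => w a (sh (-k) x) * v b x := by
    intro a b k
    obtain ⟨C, hC⟩ := (hPF b b.2).vbd
    exact afin_summable (fun x => hw a _)
      ((afin_eq hcinv X κ (-k)).summable_iff.mpr (hPF a a.2).wsum) (hv b) hC
  let T : A → A → ℤ → ℝ := fun a b k => ∑' x, w a (sh (-k) x) * v b x
  have hTpos : ∀ a b k, 0 < T a b k := by
    intro a b k
    have h1 : ∃ x, 0 < w a x := by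
      by_contra hc
      push Not at hc
      have h2 := (hPF a a.2).nrm
      have h3 : ∀ x, w (a : Γ) x * v (a : Γ) x = 0 := fun x => by
        rw [le_antisymm (hc x) (hw a x), zero_mul]
      simp [h3] at h2
    obtain ⟨x, hx⟩ := h1
    refine (hsum a b k).tsum_pos (fun y => mul_nonneg (hw a _) (hv b y).le) (sh k x) ?_
    have : sh (-k) (sh k x) = x := (afin_eq hcinv X κ k).left_inv x
    rw [this]
    exact mul_pos hx (hv b _)
  have hpair : ∀ (a b : A) (k l : ℤ), pr (fun x => w a (sh (-k) x)) (fun x => v b (sh (-l) x)) =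
      T a b (k - l) := by
    intro a b k l
    show ∑' x, w a (sh (-k) x) * v b (sh (-l) x) = ∑' x, w a (sh (-(k - l)) x) * v b x
    rw [← (afin_eq hcinv X κ (-l)).tsum_eq (fun x => w a (sh (-(k - l)) x) * v b x)]
    refine tsum_congr fun x => ?_
    show w a (sh (-k) x) * v b (sh (-l) x) =
      w a (sh (-(k - l)) (sh (-l) x)) * v b (sh (-l) x)
    have : sh (-(k - l)) (sh (-l) x) = sh (-k) x := by
      show afin_sh hcinv X κ _ (afin_sh hcinv X κ _ x) = _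
      rw [← afin_sh_add]; congr 1; ring
    rw [this]
  have hconj : ∀ (a : A) (k : ℤ), X.c ^ k * (a : Γ) * X.c ^ (-k) ∈ Pos X.toFuchs Θ :=
    fun a k => (hsemi X Θ hΘ).2 a a.2 k
  have hxi : ∀ a : A, 0 < xiG X.toFuchs a := fun a => (hfix X Θ hΘ a a.2).1
  have het : ∀ a : A, etG X.toFuchs a < 0 := fun a => (hfix X Θ hΘ a a.2).2.1
  have hid0 : ∀ (a b c : A) (k l m : ℤ), T a b (k - l) * T b c (l - m) * T c a (m - k) *
      (((X.lam ^ 2) ^ l * xiG X.toFuchs b - (X.lam ^ 2) ^ k * etG X.toFuchs a) *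
        ((X.lam ^ 2) ^ m * xiG X.toFuchs c - (X.lam ^ 2) ^ l * etG X.toFuchs b) *
        ((X.lam ^ 2) ^ k * xiG X.toFuchs a - (X.lam ^ 2) ^ m * etG X.toFuchs c)) ^ 2 =
      (((X.lam ^ 2) ^ k * xiG X.toFuchs a - (X.lam ^ 2) ^ k * etG X.toFuchs a) *
        ((X.lam ^ 2) ^ l * xiG X.toFuchs b - (X.lam ^ 2) ^ l * etG X.toFuchs b) *
        ((X.lam ^ 2) ^ m * xiG X.toFuchs c - (X.lam ^ 2) ^ m * etG X.toFuchs c)) ^ 2 := by
    intro a b c k l m
    have h := hcyc X Q μ K κ κ₂ Θ hD hu _ (hconj a k) _ (hconj b l) _ (hconj c m) _ _ _ _ _ _ _ _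
      _ (afin_shift hcinv hshift X μ κ a k (hPF a a.2))
      (afin_shift hcinv hshift X μ κ b l (hPF b b.2))
      (afin_shift hcinv hshift X μ κ c m (hPF c c.2))
    have ea := (hfix X Θ hΘ a a.2).2.2.1 k
    have eb := (hfix X Θ hΘ b b.2).2.2.1 l
    have ec := (hfix X Θ hΘ c c.2).2.2.1 m
    rw [ea.1, ea.2, eb.1, eb.2, ec.1, ec.2] at h
    rw [← hpair a b k l, ← hpair b c l m, ← hpair c a m k]
    exact h
  obtain ⟨q, P, R, hq, hP, hR, hid⟩ := hrnk A hne T (fun a => xiG X.toFuchs a)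
    (fun a => etG X.toFuchs a) (X.lam ^ 2) hΛ hxi het hTpos hid0
  have hfree := (hforb X κ hD.κ0).2
  have hfree' : ∀ (k : ℤ) (x : Bnd X.toFuchs κ), sh k x = x → k = 0 := by
    intro k x hx
    exact hfree k x (congrArg Subtype.val hx)
  obtain ⟨m, W, V, hWV⟩ := hsumm (Bnd X.toFuchs κ) sh (afin_sh_zero hcinv X κ)
    (afin_sh_add hcinv X κ) hfree' (afin_orb hcinv hforb X κ hD.κ0)
    A (fun a => w a) (fun a => v a) (fun a => xiG X.toFuchs a) (fun a => etG X.toFuchs a) P R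
    (X.lam ^ 2) q hΛ hq hxi het hP hR hw (fun a x => (hv a x).le) hsum hid
  refine hkper (Real.log (X.lam ^ 2)) (Real.log_pos hΛ) m A
    (fun a => Real.log (-etG X.toFuchs a)) (fun a => Real.log (xiG X.toFuchs a)) ?_ ?_ W V hWV
  · refine hden2.mono ?_
    rintro s ⟨a, ha, rfl⟩
    exact ⟨⟨a, ha⟩, rfl⟩
  · refine hden1.mono ?_
    rintro s ⟨a, ha, rfl⟩
    exact ⟨⟨a, ha⟩, rfl⟩

end Pool.Agent.Helper12.GM
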