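import Pool.Agent.Helper12.GM.Stmts

namespace Pool.Agent.Helper12.GM

theorem st_BFIN (hsym : ST_SYM) (hlin : ST_LIN) (hcnt : ST_CNT) : ST_BFIN := by
  intro Γ _ Q F hF hS
  obtain ⟨C', hC'⟩ := hsym Q F hF hS
  by_cases hB : ∀ B : ℝ, ∃ g, B ≤ uu Q F g
  · obtain ⟨c₅, hc, h1⟩ := hlin Q F hF hB
    obtain ⟨H₀, h2⟩ := hcnt Q F hF ⟨C', hC'⟩ c₅ hc
    obtain ⟨h, h3, h4⟩ := h1 H₀
    exact absurd (h2 h h3) (not_lt.mpr h4)
  · push Not at hB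
    obtain ⟨B, hB⟩ := hB
    refine ⟨C' + |B|, fun g => ?_⟩
    have h1 := abs_le.mp (hC' g)
    have h2 := hB g
    have h3 := hB g⁻¹
    have h4 := le_abs_self B
    have h5 : 0 ≤ C' := le_trans (abs_nonneg _) (hC' g)
    rw [abs_le]
    constructor <;> linarith [h1.1, h1.2]

end Pool.Agent.Helper12.GM
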