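import Pool.Agent.Helper12.GM.LibF

open scoped ENNReal UpperHalfPlane MatrixGroups Topology
open UpperHalfPlane Real Filter

namespace Pool.Agent.Helper12.GM

abbrev conn_M2 := Matrix (Fin 2) (Fin 2) ℝ

theorem conn_nsq_nonneg (A : conn_M2) : 0 ≤ nsq A := by unfold nsq; positivity

theorem conn_nsq_zero {A : conn_M2} (h : nsq A = 0) : A = 0 := by
  unfold nsq at h
  have h1 : A 0 0 = 0 := by nlinarith [sq_nonneg (A 0 0), sq_nonneg (A 0 1), sq_nonneg (A 1 0), sq_nonneg (A 1 1)]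
  have h2 : A 0 1 = 0 := by nlinarith [sq_nonneg (A 0 0), sq_nonneg (A 0 1), sq_nonneg (A 1 0), sq_nonneg (A 1 1)]
  have h3 : A 1 0 = 0 := by nlinarith [sq_nonneg (A 0 0), sq_nonneg (A 0 1), sq_nonneg (A 1 0), sq_nonneg (A 1 1)]
  have h4 : A 1 1 = 0 := by nlinarith [sq_nonneg (A 0 0), sq_nonneg (A 0 1), sq_nonneg (A 1 0), sq_nonneg (A 1 1)]
  ext i j
  fin_cases i <;> fin_cases j <;> simpa

theorem conn_nsq_smul (t : ℝ) (A : conn_M2) : nsq (t • A) = t ^ 2 * nsq A := by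
  unfold nsq; simp only [Matrix.smul_apply, smul_eq_mul]; ring

theorem conn_cont : Continuous nsq := by
  unfold nsq
  fun_prop

theorem conn_irr (hI : ST_IRR) {Γ : Type} [Group Γ] (X : Fuchs Γ) (P Q : conn_M2)
    (hP : P ≠ 0) (hQ : Q ≠ 0) : ∃ f, P * (X.M f).1 * Q ≠ 0 := by
  by_contra hc
  push Not at hc
  -- a nonzero column of Q
  obtain ⟨j, hj⟩ : ∃ j, (fun i => Q i j) ≠ 0 := by
    by_contra h
    push Not at h
    apply hQ
    ext i j
    exact congrFun (h j) i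
  obtain ⟨i, hi⟩ : ∃ i, P i ≠ 0 := by
    by_contra h
    push Not at h
    apply hP
    ext i j
    exact congrFun (h i) j
  set v : Fin 2 → ℝ := fun i => Q i j with hv
  have hker : ∀ f, P i 0 * ((X.M f).1.mulVec v) 0 + P i 1 * ((X.M f).1.mulVec v) 1 = 0 := by
    intro f
    have h := congrFun (congrFun (hc f) i) j
    rw [Matrix.mul_assoc] at h
    simpa [Matrix.mul_apply, Fin.sum_univ_two, Matrix.mulVec, dotProduct, hv] using h
  have h1 : P i 0 * v 0 + P i 1 * v 1 = 0 := by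
    have h := hker 1
    rcases X.M_one with h2 | h2
    · rw [h2] at h; simpa using h
    · rw [h2] at h
      simp [Matrix.neg_mulVec] at h
      linarith
  apply hI X
  refine ⟨v, hj, fun g => ?_⟩
  have hg := hker g
  set w := (X.M g).1.mulVec v with hw
  -- both v and w are orthogonal to (P i 0, P i 1) ≠ 0
  have hp : P i 0 ≠ 0 ∨ P i 1 ≠ 0 := by
    by_contra h
    push Not at h
    apply hi
    ext k; fin_cases k <;> simp [h.1, h.2]
  have hdet : v 0 * w 1 - v 1 * w 0 = 0 := by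
    rcases hp with h | h
    · have : P i 0 * (v 0 * w 1 - v 1 * w 0) = 0 := by linear_combination w 1 * h1 - v 1 * hg
      exact (mul_eq_zero.mp this).resolve_left h
    · have : P i 1 * (v 0 * w 1 - v 1 * w 0) = 0 := by linear_combination v 0 * hg - w 0 * h1
      exact (mul_eq_zero.mp this).resolve_left h
  have hvv : v 0 ≠ 0 ∨ v 1 ≠ 0 := by
    by_contra h
    push Not at h
    apply hj
    ext k; fin_cases k <;> simp [h.1, h.2]
  rcases hvv with h | h
  · refine ⟨w 0 / v 0, ?_⟩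
    ext k; fin_cases k
    · simp; field_simp
    · simp; field_simp; linear_combination hdet
  · refine ⟨w 1 / v 1, ?_⟩
    ext k; fin_cases k
    · simp; field_simp; linear_combination -hdet
    · simp; field_simp

theorem st_CONN (hI : ST_IRR) : ST_CONN := by
  intro Γ _ X
  set S : Set (conn_M2 × conn_M2) := {p | nsq p.1 = 1 ∧ nsq p.2 = 1} with hS
  have hbd : ∀ A : conn_M2, nsq A = 1 → ∀ i j, |A i j| ≤ 1 := by
    intro A hA i j
    unfold nsq at hA
    rw [← sq_le_one_iff_abs_le_one]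
    fin_cases i <;> fin_cases j
    · show A 0 0 ^ 2 ≤ 1
      nlinarith [sq_nonneg (A 0 0), sq_nonneg (A 0 1), sq_nonneg (A 1 0), sq_nonneg (A 1 1)]
    · show A 0 1 ^ 2 ≤ 1
      nlinarith [sq_nonneg (A 0 0), sq_nonneg (A 0 1), sq_nonneg (A 1 0), sq_nonneg (A 1 1)]
    · show A 1 0 ^ 2 ≤ 1
      nlinarith [sq_nonneg (A 0 0), sq_nonneg (A 0 1), sq_nonneg (A 1 0), sq_nonneg (A 1 1)]
    · show A 1 1 ^ 2 ≤ 1
      nlinarith [sq_nonneg (A 0 0), sq_nonneg (A 0 1), sq_nonneg (A 1 0), sq_nonneg (A 1 1)]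
  have hcl : IsClosed S := by
    have h1 : Continuous fun p : conn_M2 × conn_M2 => nsq p.1 := conn_cont.comp continuous_fst
    have h2 : Continuous fun p : conn_M2 × conn_M2 => nsq p.2 := conn_cont.comp continuous_snd
    exact (isClosed_eq h1 continuous_const).inter (isClosed_eq h2 continuous_const)
  have hcomp : IsCompact S := by
    have hK : IsCompact {A : conn_M2 | ∀ i j, A i j ∈ Set.Icc (-1 : ℝ) 1} := by
      have : {A : conn_M2 | ∀ i j, A i j ∈ Set.Icc (-1 : ℝ) 1} =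
          Set.univ.pi fun _ => Set.univ.pi fun _ => Set.Icc (-1 : ℝ) 1 := by
        ext A
        constructor
        · intro h i _ j _; exact h i j
        · intro h i j; exact h i (Set.mem_univ _) j (Set.mem_univ _)
      rw [this]
      exact isCompact_univ_pi fun _ => isCompact_univ_pi fun _ => isCompact_Icc
    refine (hK.prod hK).of_isClosed_subset hcl ?_
    rintro ⟨A, B⟩ ⟨hA, hB⟩
    exact ⟨fun i j => abs_le.mp (hbd A hA i j), fun i j => abs_le.mp (hbd B hB i j)⟩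
  have hcontf : ∀ f : Γ, Continuous fun p : conn_M2 × conn_M2 => nsq (p.1 * (X.M f).1 * p.2) := by
    intro f
    exact conn_cont.comp ((continuous_fst.matrix_mul continuous_const).matrix_mul continuous_snd)
  obtain ⟨T, hT⟩ := hcomp.elim_finite_subcover
    (fun f : Γ => {p : conn_M2 × conn_M2 | 0 < nsq (p.1 * (X.M f).1 * p.2)})
    (fun f => isOpen_lt continuous_const (hcontf f)) (by
      rintro ⟨A, B⟩ ⟨hA, hB⟩
      obtain ⟨f, hf⟩ := conn_irr hI X A B (by rintro rfl; simp [nsq] at hA)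
        (by rintro rfl; simp [nsq] at hB)
      refine Set.mem_iUnion.mpr ⟨f, ?_⟩
      exact lt_of_le_of_ne (conn_nsq_nonneg _) (fun h => hf (conn_nsq_zero h.symm)))
  have hSne : S.Nonempty := by
    refine ⟨(!![1, 0; 0, 0], !![1, 0; 0, 0]), ?_, ?_⟩ <;> simp [nsq]
  have hcontS : ContinuousOn (fun p : conn_M2 × conn_M2 => ∑ f ∈ T, nsq (p.1 * (X.M f).1 * p.2)) S :=
    (continuous_finsetSum _ fun f _ => hcontf f).continuousOn
  obtain ⟨p₀, hp₀, hmin⟩ := hcomp.exists_isMinOn hSne hcontS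
  have hm : 0 < ∑ f ∈ T, nsq (p₀.1 * (X.M f).1 * p₀.2) := by
    obtain ⟨f, hf⟩ := Set.mem_iUnion.mp (hT hp₀)
    obtain ⟨hfT, hf2⟩ := Set.mem_iUnion.mp hf
    exact Finset.sum_pos' (fun g _ => conn_nsq_nonneg _) ⟨f, hfT, hf2⟩
  set m := ∑ f ∈ T, nsq (p₀.1 * (X.M f).1 * p₀.2) with hmdef
  have hTne : T.Nonempty := by
    rcases T.eq_empty_or_nonempty with h | h
    · rw [h] at hmdef; simp at hmdef; linarith
    · exact h
  have hcard : (0 : ℝ) < T.card := by exact_mod_cast hTne.card_pos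
  refine ⟨T, m / T.card, div_pos hm hcard, fun P Q => ?_⟩
  -- normalised case
  have key : ∀ P Q : conn_M2, nsq P = 1 → nsq Q = 1 →
      ∃ f ∈ T, m / T.card ≤ nsq (P * (X.M f).1 * Q) := by
    intro P Q hP hQ
    by_contra hc
    push Not at hc
    have h1 : ∑ f ∈ T, nsq (P * (X.M f).1 * Q) < ∑ f ∈ T, m / T.card :=
      Finset.sum_lt_sum_of_nonempty hTne hc
    rw [Finset.sum_const, nsmul_eq_mul, mul_div_cancel₀ _ hcard.ne'] at h1
    have h2 := hmin (show (P, Q) ∈ S from ⟨hP, hQ⟩)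
    simp only [Set.mem_ofPred_eq] at h2
    exact absurd h2 (not_le.mpr h1)
  by_cases hP : nsq P = 0
  · obtain ⟨f, hf⟩ := hTne
    exact ⟨f, hf, by rw [hP]; simpa using conn_nsq_nonneg _⟩
  by_cases hQ : nsq Q = 0
  · obtain ⟨f, hf⟩ := hTne
    exact ⟨f, hf, by rw [hQ]; simpa using conn_nsq_nonneg _⟩
  have hP' : 0 < nsq P := lt_of_le_of_ne (conn_nsq_nonneg _) (Ne.symm hP)
  have hQ' : 0 < nsq Q := lt_of_le_of_ne (conn_nsq_nonneg _) (Ne.symm hQ)
  have e1 : nsq ((√(nsq P))⁻¹ • P) = 1 := by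
    rw [conn_nsq_smul, inv_pow, Real.sq_sqrt hP'.le, inv_mul_cancel₀ hP]
  have e2 : nsq ((√(nsq Q))⁻¹ • Q) = 1 := by
    rw [conn_nsq_smul, inv_pow, Real.sq_sqrt hQ'.le, inv_mul_cancel₀ hQ]
  obtain ⟨f, hf, h⟩ := key _ _ e1 e2
  refine ⟨f, hf, ?_⟩
  rw [Matrix.smul_mul, Matrix.smul_mul, Matrix.mul_smul, conn_nsq_smul, conn_nsq_smul, inv_pow,
    inv_pow, Real.sq_sqrt hP'.le, Real.sq_sqrt hQ'.le] at h
  have h3 := mul_le_mul_of_nonneg_right h (mul_pos hP' hQ').le
  refine h3.trans (le_of_eq ?_)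
  field_simp

end Pool.Agent.Helper12.GM
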