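import Mathlib

/-!
# Green metrics on cocompact Fuchsian groups: definitions

Blueprint: /team-store/h12_green.md.
-/

open scoped ENNReal UpperHalfPlane MatrixGroups
open UpperHalfPlane Real

namespace Pool.Agent.Helper12.GM

/-- A (torsion-free) cocompact Fuchsian representation of `Γ`, given by matrices in `SL(2, ℝ)` up
to sign: a homomorphism to `PSL(2, ℝ)`, properly discontinuous and cocompact on the hyperbolic
plane, all nontrivial elements being hyperbolic. For `Γ = π₁(S)` this is exactly a hyperbolic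
metric on the closed surface `S`, with its marking. -/
structure Fuchs (Γ : Type) [Group Γ] where
  /-- the matrix of an element (up to sign) -/
  M : Γ → SL(2, ℝ)
  mul' : ∀ g h, M (g * h) = M g * M h ∨ M (g * h) = -(M g * M h)
  disc : ∀ r : ℝ, {g : Γ | dist (I : ℍ) (M g • (I : ℍ)) ≤ r}.Finite
  cocpt : ∃ R : ℝ, ∀ z : ℍ, ∃ g, dist z (M g • (I : ℍ)) ≤ R
  hyp : ∀ g, g ≠ 1 → 2 < |(M g).1.trace|

/-- An abstract hyperbolic length function on a group (all that is used of the geometry in the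
first half of the proof). -/
structure Geo (Γ : Type) [Group Γ] where
  /-- the length function -/
  L : Γ → ℝ
  /-- one constant for everything -/
  C : ℝ
  /-- the finite set of connectors -/
  F : Finset Γ
  one_le_C : 1 ≤ C
  one : L 1 = 0
  nonneg : ∀ g, 0 ≤ L g
  inv : ∀ g, L g⁻¹ = L g
  mul : ∀ g h, L (g * h) ≤ L g + L h
  four : ∀ x y z w, L (x⁻¹ * z) + L (y⁻¹ * w) ≤
    max (L (x⁻¹ * y) + L (z⁻¹ * w)) (L (x⁻¹ * w) + L (y⁻¹ * z)) + C
  geod : ∀ g, ∀ t, 0 ≤ t → t ≤ L g → ∃ p, L p ≤ t + C ∧ L (p⁻¹ * g) ≤ L g - t + C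
  fin : ∀ t, {g | L g ≤ t}.Finite
  upper : ∀ t, 0 ≤ t → ({g | L g ≤ t}.ncard : ℝ) ≤ C * Real.exp t
  lower : ∀ t, 0 ≤ t → Real.exp t ≤ C * ({g | t - C ≤ L g ∧ L g ≤ t + C}.ncard : ℝ)
  conn : ∀ g h, ∃ f ∈ F, L g + L h ≤ L (g * f * h) + C

variable {Γ : Type} [Group Γ]

/-- the distance -/
def Geo.d (Q : Geo Γ) (x y : Γ) : ℝ := Q.L (x⁻¹ * y)

/-- the Gromov product `(x|y)_z` -/
noncomputable def Geo.gp (Q : Geo Γ) (x y z : Γ) : ℝ := (Q.d z x + Q.d z y - Q.d x y) / 2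

/-! ### Random walks -/

open Classical in
/-- total weight of the paths `x = x_0, …, x_n = y`, `x_{i+1} = x_i s_{i+1}`, weight
`∏ μ (s_i)`, with `x_0, …, x_{n-1} ∈ Ω` (the last point is free). -/
noncomputable def pw (μ : PMF Γ) (Ω : Set Γ) : ℕ → Γ → Γ → ℝ≥0∞
  | 0, x, y => if x = y then 1 else 0
  | n + 1, x, y => if x ∈ Ω then ∑' s, μ s * pw μ Ω n (x * s) y else 0

/-- Green function of the walk killed when it leaves `Ω` (the exit point is recorded). -/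
noncomputable def Gr (μ : PMF Γ) (Ω : Set Γ) (x y : Γ) : ℝ≥0∞ := ∑' n, pw μ Ω n x y

/-- probability of ever hitting `g` from `1`, as a quotient of Green functions -/
noncomputable def Fh (μ : PMF Γ) (g : Γ) : ℝ :=
  (Gr μ Set.univ 1 g / Gr μ Set.univ 1 1).toReal

/-- admissible: finite support, containing a symmetric generating set -/
structure Adm (μ : PMF Γ) : Prop where
  fin : μ.support.Finite
  gen : ∃ S : Set Γ, S ⊆ μ.support ∧ (∀ s ∈ S, s⁻¹ ∈ S) ∧ Subgroup.closure S = ⊤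

/-- finite range + spectral gap -/
structure Wk (Q : Geo Γ) (μ : PMF Γ) (K : ℝ) : Prop where
  one_le : 1 ≤ K
  adm : Adm μ
  step : ∀ s, μ s ≠ 0 → Q.L s ≤ K
  gap : ∀ (n : ℕ) (x y : Γ), pw μ Set.univ n x y ≤ ENNReal.ofReal (Real.exp (-(n : ℝ) / K))

/-- what the second part (growth argument) uses of the hitting probabilities `F` -/
structure GF (Q : Geo Γ) (F : Γ → ℝ) : Prop where
  pos : ∀ g, 0 < F g
  le_one : ∀ g, F g ≤ 1
  one : F 1 = 1
  mul : ∀ g h, F g * F h ≤ F (g * h)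
  anc : ∀ C₁ : ℝ, ∃ K' : ℝ, ∀ g h, Q.L g + Q.L h ≤ Q.L (g * h) + C₁ → F (g * h) ≤ K' * (F g * F h)
  zfin : ∀ s : ℝ, 0 < s → Summable fun g => F g * Real.exp (-s * Q.L g)

/-- `u(g) = -log F(g) - L(g)` -/
noncomputable def uu (Q : Geo Γ) (F : Γ → ℝ) (g : Γ) : ℝ := -Real.log (F g) - Q.L g

/-! ### The Fuchsian side -/

/-- length `d(i, g i)` -/
noncomputable def Fuchs.L (X : Fuchs Γ) (g : Γ) : ℝ := dist (I : ℍ) (X.M g • (I : ℍ))

/-- a Fuchsian representation for which the imaginary axis is the axis of `c ∈ Γ` -/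
structure NFuchs (Γ : Type) [Group Γ] extends Fuchs Γ where
  c : Γ
  lam : ℝ
  one_lt : 1 < lam
  Mc : (M c).1 = !![lam, 0; 0, lam⁻¹]

/-- the sector `Re z < -κ Im z` -/
def Lft (X : Fuchs Γ) (κ : ℝ) : Set Γ := {x | (X.M x • (I : ℍ)).re < -κ * (X.M x • (I : ℍ)).im}

/-- the sector `Re z > κ Im z` -/
def Rgt (X : Fuchs Γ) (κ : ℝ) : Set Γ := {x | κ * (X.M x • (I : ℍ)).im < (X.M x • (I : ℍ)).re}

/-- the neighbourhood `|Re z| ≤ κ Im z` of the imaginary axis -/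
def Bnd (X : Fuchs Γ) (κ : ℝ) : Set Γ :=
  {x | |(X.M x • (I : ℍ)).re| ≤ κ * (X.M x • (I : ℍ)).im}

/-- elements whose matrix has (up to sign) positive entries `p q r s` with `q r ≥ Θ` -/
def Pos (X : Fuchs Γ) (Θ : ℝ) : Set Γ :=
  {a | ∃ p q r s : ℝ, 0 < p ∧ 0 < q ∧ 0 < r ∧ 0 < s ∧ Θ ≤ q * r ∧
    ((X.M a).1 = !![p, q; r, s] ∨ (X.M a).1 = -!![p, q; r, s])}

end Pool.Agent.Helper12.GM
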