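import Pool.Agent.Helper12.GM.Lib
import Pool.Agent.Helper12.GM.LibF

open scoped ENNReal UpperHalfPlane MatrixGroups Topology
open UpperHalfPlane Real Filter

namespace Pool.Agent.Helper12.GM

theorem final_lamb {A B : SL(2, ℝ)} (h : |A.1.trace| = |B.1.trace|) : lamb A = lamb B := by
  unfold lamb
  rw [h, ← sq_abs A.1.trace, h, sq_abs]

theorem final_Fh {Γ : Type} [Group Γ] (μ μ' : PMF Γ)
    (h : ∀ x y, Gr μ' Set.univ x y = 2 * Gr μ Set.univ x y) (g : Γ) : Fh μ' g = Fh μ g := by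
  unfold Fh
  rw [h, h, ENNReal.mul_div_mul_left _ _ (by norm_num) (by norm_num)]

/-- Fekete for `-log F` -/
theorem final_fek {Γ : Type} [Group Γ] (F : Γ → ℝ) (hpos : ∀ g, 0 < F g) (hle : ∀ g, F g ≤ 1)
    (hmul : ∀ g h, F g * F h ≤ F (g * h)) (g : Γ) :
    ∃ ℓ : ℝ, Tendsto (fun n : ℕ => -Real.log (F (g ^ n)) / n) atTop (𝓝 ℓ) := by
  have hsub : Subadditive (fun n : ℕ => -Real.log (F (g ^ n))) := by
    intro m n
    have h1 := hmul (g ^ m) (g ^ n)
    rw [← pow_add] at h1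
    have h2 := Real.log_le_log (mul_pos (hpos _) (hpos _)) h1
    rw [Real.log_mul (hpos _).ne' (hpos _).ne'] at h2
    show -Real.log (F (g ^ (m + n))) ≤ -Real.log (F (g ^ m)) + -Real.log (F (g ^ n))
    linarith
  refine ⟨hsub.lim, hsub.tendsto_lim ⟨0, ?_⟩⟩
  rintro x ⟨n, rfl⟩
  have h1 : Real.log (F (g ^ n)) ≤ 0 := Real.log_nonpos (hpos _).le (hle _)
  show 0 ≤ -Real.log (F (g ^ n)) / n
  exact div_nonneg (by linarith) (Nat.cast_nonneg n)

theorem st_FINAL (hnf : ST_NF) (hgeo : ST_GEO) (htau : ST_TAU) (htlen : ST_TLEN) (hpar : ST_PAR)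
    (hgapa : ST_GAPA) (hgapb : ST_GAPB) (hgfm : ST_GFM) (hlazy : ST_LAZY) (hb : ST_BFIN)
    (ha : ST_AFIN) (hhit : ST_HIT) : ST_FINAL := by
  intro Γ _ X μ hμ
  have := X.countable
  obtain ⟨μ', hμ', hμ1, hG⟩ := hlazy μ hμ
  obtain ⟨Y, hY⟩ := hnf X
  obtain ⟨A, g₀, h₀, hP⟩ := hpar Y
  obtain ⟨S, hS1, hS2, hS3⟩ := hμ'.gen
  obtain ⟨T, ε, hT, hkaz⟩ := hgapa A g₀ h₀ hP S hS2 hS3
  obtain ⟨K₀, hK₀, hgap⟩ := hgapb μ' hμ' hμ1 T ε (hT.trans hS1) hkaz
  obtain ⟨Q, hQ⟩ := hgeo Y.toFuchs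
  obtain ⟨K₁, hK₁⟩ : ∃ K₁ : ℝ, ∀ s, μ' s ≠ 0 → Q.L s ≤ K₁ := by
    obtain ⟨K₁, h⟩ := (hμ'.fin.image Q.L).bddAbove
    refine ⟨K₁, fun s hs => h ⟨s, ?_, rfl⟩⟩
    exact (PMF.mem_support_iff _ _).mpr hs
  have hW : Wk Q μ' (max K₀ K₁) := by
    refine ⟨le_max_of_le_left hK₀, hμ', fun s hs => (hK₁ s hs).trans (le_max_right _ _), ?_⟩
    intro n x y
    refine (hgap n x y).trans (ENNReal.ofReal_le_ofReal (Real.exp_le_exp.mpr ?_))
    rw [neg_div, neg_div, neg_le_neg_iff]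
    have h1 : 0 < K₀ := by linarith
    exact div_le_div_of_nonneg_left (Nat.cast_nonneg n) h1 (le_max_left _ _)
  have hGF := hgfm Q μ' _ hW
  have hFF : Fh μ' = Fh μ := funext (final_Fh μ μ' hG)
  have hfin : Gr μ Set.univ 1 1 ≠ ∞ := by
    intro h
    have h1 := hG 1 1
    rw [h] at h1
    exact hW.G0_ne_top (by rw [h1]; exact ENNReal.mul_top (by norm_num))
  have hex := fun g => final_fek (Fh μ') hGF.pos hGF.le_one hGF.mul g
  choose ℓ hℓ using hex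
  refine ⟨ℓ, ?_, ?_⟩
  · intro g x
    have e : (fun n : ℕ => dgreen μ x (g ^ n * x) / n) =
        fun n : ℕ => -Real.log (Fh μ' (g ^ n)) / n := by
      funext n
      have e1 : {ω : ℕ → Γ | ∃ m, wpos ω m * x = g ^ n * x} = {ω | ∃ m, wpos ω m = g ^ n} := by
        ext ω; simp
      unfold dgreen
      rw [e1, hhit μ hμ hfin, hFF]
    rw [e]
    exact hℓ g
  · by_contra hcon
    push Not at hcon
    have hst : StabEq Q (Fh μ') := by
      intro g hg a b c h1 h2 h3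
      have e1 : a = ℓ g := tendsto_nhds_unique h1 (hℓ g)
      have e2 : b = ℓ g⁻¹ := tendsto_nhds_unique h2 (hℓ g⁻¹)
      have hY2 : 2 < |(Y.M g).1.trace| := Y.hyp g hg
      have hX2 : 2 < |(X.M g).1.trace| := X.hyp g hg
      have e3 : c = 2 * Real.log (lamb (Y.M g)) := by
        refine tendsto_nhds_unique h3 ?_
        have e4 : (fun n : ℕ => Q.L (g ^ n) / n) =
            fun n : ℕ => dist (I : ℍ) (Y.M g ^ n • (I : ℍ)) / n := by
          funext n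
          rw [hQ]
          unfold Fuchs.L
          rcases Y.M_pow g n with h | h
          · rw [h]
          · rw [h, neg_smul_H]
        rw [e4]
        exact htau _ hY2
      have e5 := hcon g hg
      unfold hlen at e5
      rw [htlen _ hX2, ← final_lamb (hY g)] at e5
      rw [e1, e2, e3]
      linarith
    exact ha Y Q μ' _ hQ hW (hb Q (Fh μ') hGF hst)

end Pool.Agent.Helper12.GM
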