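import Pool.Agent.Helper12.GM.Stmts

/-!
# Library: killed random walks, Green functions, resolvent identities
-/

open scoped ENNReal Topology
open Filter

namespace Pool.Agent.Helper12.GM

variable {Γ : Type} [Group Γ] (μ : PMF Γ)

theorem pw_zero (Ω : Set Γ) (x y : Γ) [Decidable (x = y)] :
    pw μ Ω 0 x y = if x = y then 1 else 0 := by
  unfold pw; congr

theorem pw_zero_self (Ω : Set Γ) (x : Γ) : pw μ Ω 0 x x = 1 := by
  classical rw [pw_zero, if_pos rfl]

theorem pw_zero_ne (Ω : Set Γ) {x y : Γ} (h : x ≠ y) : pw μ Ω 0 x y = 0 := by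
  classical rw [pw_zero, if_neg h]

theorem pw_succ_mem {Ω : Set Γ} (n : ℕ) {x : Γ} (y : Γ) (h : x ∈ Ω) :
    pw μ Ω (n + 1) x y = ∑' s, μ s * pw μ Ω n (x * s) y := by
  rw [pw, if_pos h]

theorem pw_succ_not_mem {Ω : Set Γ} (n : ℕ) {x : Γ} (y : Γ) (h : x ∉ Ω) :
    pw μ Ω (n + 1) x y = 0 := by
  rw [pw, if_neg h]

theorem pw_add (Ω : Set Γ) (m n : ℕ) (x y : Γ) :
    pw μ Ω (m + n) x y = ∑' z, pw μ Ω m x z * pw μ Ω n z y := by
  classical
  induction m generalizing x with
  | zero =>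
    rw [zero_add, tsum_eq_single x]
    · rw [pw_zero_self, one_mul]
    · intro z hz
      rw [pw_zero_ne μ Ω (Ne.symm hz), zero_mul]
  | succ m ih =>
    rw [Nat.add_right_comm]
    by_cases h : x ∈ Ω
    · rw [pw_succ_mem μ _ _ h]
      simp_rw [pw_succ_mem μ m _ h, ih, ← ENNReal.tsum_mul_left, ← ENNReal.tsum_mul_right]
      rw [ENNReal.tsum_comm]
      exact tsum_congr fun z => tsum_congr fun s => by rw [mul_assoc]
    · rw [pw_succ_not_mem μ _ _ h]
      simp_rw [pw_succ_not_mem μ m _ h]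
      simp

theorem pw_mono {Ω Ω' : Set Γ} (h : Ω ⊆ Ω') (n : ℕ) (x y : Γ) : pw μ Ω n x y ≤ pw μ Ω' n x y := by
  classical
  induction n generalizing x with
  | zero => rw [pw_zero, pw_zero]
  | succ n ih =>
    by_cases hx : x ∈ Ω
    · rw [pw_succ_mem μ _ _ hx, pw_succ_mem μ _ _ (h hx)]
      exact ENNReal.tsum_le_tsum fun s => by gcongr; exact ih _
    · rw [pw_succ_not_mem μ _ _ hx]; exact zero_le

theorem pw_left (Ω : Set Γ) (n : ℕ) (g x y : Γ) :
    pw μ {x | g⁻¹ * x ∈ Ω} n (g * x) (g * y) = pw μ Ω n x y := by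
  classical
  induction n generalizing x with
  | zero => rw [pw_zero, pw_zero]; simp only [mul_right_inj]
  | succ n ih =>
    by_cases hx : x ∈ Ω
    · rw [pw_succ_mem μ _ _ hx, pw_succ_mem μ _ _ (by simpa using hx)]
      exact tsum_congr fun s => by rw [mul_assoc, ih]
    · rw [pw_succ_not_mem μ _ _ hx, pw_succ_not_mem μ _ _ (by simpa using hx)]

theorem Gr_mono {Ω Ω' : Set Γ} (h : Ω ⊆ Ω') (x y : Γ) : Gr μ Ω x y ≤ Gr μ Ω' x y :=
  ENNReal.tsum_le_tsum fun n => pw_mono μ h n x y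

theorem Gr_left (Ω : Set Γ) (g x y : Γ) :
    Gr μ {x | g⁻¹ * x ∈ Ω} (g * x) (g * y) = Gr μ Ω x y :=
  tsum_congr fun n => pw_left μ Ω n g x y

theorem Gr_left_univ (g x y : Γ) : Gr μ Set.univ (g * x) (g * y) = Gr μ Set.univ x y := by
  have h := Gr_left μ Set.univ g x y
  have h2 : {x | g⁻¹ * x ∈ (Set.univ : Set Γ)} = Set.univ := by ext; simp
  rwa [h2] at h

theorem Gr_univ_eq (x y : Γ) : Gr μ Set.univ x y = Gr μ Set.univ 1 (x⁻¹ * y) := by
  rw [← Gr_left_univ μ x⁻¹ x y, inv_mul_cancel]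

/-- first step -/
theorem Gr_mem {Ω : Set Γ} {x : Γ} (y : Γ) (h : x ∈ Ω) :
    Gr μ Ω x y = pw μ Ω 0 x y + ∑' s, μ s * Gr μ Ω (x * s) y := by
  unfold Gr
  rw [tsum_eq_zero_add' ENNReal.summable]
  congr 1
  simp_rw [pw_succ_mem μ _ _ h, ← ENNReal.tsum_mul_left]
  exact ENNReal.tsum_comm

theorem Gr_not_mem {Ω : Set Γ} {x : Γ} (y : Γ) (h : x ∉ Ω) : Gr μ Ω x y = pw μ Ω 0 x y := by
  unfold Gr
  rw [tsum_eq_zero_add' ENNReal.summable]
  simp_rw [pw_succ_not_mem μ _ _ h]
  simp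

/-- for `x ∈ Ω`, `x ≠ y`: `P Gr (x,y) = Gr x y` -/
theorem Gr_mem_ne {Ω : Set Γ} {x y : Γ} (h : x ∈ Ω) (hxy : x ≠ y) :
    ∑' s, μ s * Gr μ Ω (x * s) y = Gr μ Ω x y := by
  rw [Gr_mem μ y h, pw_zero_ne μ Ω hxy, zero_add]

theorem Gr_mem_le {Ω : Set Γ} {x : Γ} (y : Γ) (h : x ∈ Ω) :
    ∑' s, μ s * Gr μ Ω (x * s) y ≤ Gr μ Ω x y := by
  rw [Gr_mem μ y h]; exact le_add_self

theorem one_le_Gr (Ω : Set Γ) (x : Γ) : 1 ≤ Gr μ Ω x x := by
  rw [← pw_zero_self μ Ω x]
  exact ENNReal.le_tsum 0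

theorem ennreal_cauchy (a b : ℕ → ℝ≥0∞) :
    (∑' i, a i) * (∑' j, b j) =
      ∑' n, ∑ p ∈ Finset.HasAntidiagonal.antidiagonal n, a p.1 * b p.2 := by
  have h1 : (∑' i, a i) * (∑' j, b j) = ∑' p : ℕ × ℕ, a p.1 * b p.2 := by
    rw [← ENNReal.tsum_mul_right, ENNReal.tsum_prod (f := fun i j => a i * b j)]
    exact tsum_congr fun i => ENNReal.tsum_mul_left.symm
  rw [h1, ← (Finset.HasAntidiagonal.sigmaAntidiagonalEquivProd (A := ℕ)).tsum_eq,
    ENNReal.tsum_sigma']
  refine tsum_congr fun n => ?_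
  rw [← Finset.tsum_subtype]
  rfl

/-- sum over the intermediate points in `W` -/
theorem pw_res1 (Ω A : Set Γ) (n : ℕ) (x y : Γ) :
    pw μ Ω (n + 1) x y = pw μ (Ω \ A) (n + 1) x y +
      ∑' z, Set.indicator (A ∩ Ω) (fun z => ∑ p ∈ Finset.HasAntidiagonal.antidiagonal n,
        pw μ (Ω \ A) p.1 x z * ∑' s, μ s * pw μ Ω p.2 (z * s) y) z := by
  classical
  induction n generalizing x with
  | zero =>
    simp only [Finset.Nat.antidiagonal_zero, Finset.sum_singleton, zero_add]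
    by_cases hx : x ∈ Ω
    · by_cases hA : x ∈ A
      · rw [pw_succ_not_mem μ (Ω := Ω \ A) 0 y (fun h => h.2 hA), zero_add, tsum_eq_single x]
        · rw [Set.indicator_of_mem (Set.mem_inter hA hx), pw_zero_self, one_mul,
            pw_succ_mem μ 0 y hx]
        · intro z hz
          by_cases h : z ∈ A ∩ Ω
          · rw [Set.indicator_of_mem h, pw_zero_ne μ _ (Ne.symm hz), zero_mul]
          · rw [Set.indicator_of_notMem h]
      · rw [pw_succ_mem μ 0 y hx, pw_succ_mem μ (Ω := Ω \ A) 0 y ⟨hx, hA⟩]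
        have : ∀ z, Set.indicator (A ∩ Ω) (fun z =>
            pw μ (Ω \ A) 0 x z * ∑' s, μ s * pw μ Ω 0 (z * s) y) z = 0 := by
          intro z
          by_cases h : z ∈ A ∩ Ω
          · rw [Set.indicator_of_mem h, pw_zero_ne μ _ (fun e : x = z => hA (e ▸ h.1)), zero_mul]
          · rw [Set.indicator_of_notMem h]
        simp only [this, tsum_zero, add_zero]
        rfl
    · rw [pw_succ_not_mem μ 0 y hx, pw_succ_not_mem μ (Ω := Ω \ A) 0 y (fun h => hx h.1)]
      have : ∀ z, Set.indicator (A ∩ Ω) (fun z =>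
          pw μ (Ω \ A) 0 x z * ∑' s, μ s * pw μ Ω 0 (z * s) y) z = 0 := by
        intro z
        by_cases h : z ∈ A ∩ Ω
        · rw [Set.indicator_of_mem h, pw_zero_ne μ _ (fun e : x = z => hx (e ▸ h.2)), zero_mul]
        · rw [Set.indicator_of_notMem h]
      simp only [this, tsum_zero, add_zero]
  | succ n ih =>
    by_cases hx : x ∈ Ω
    · by_cases hA : x ∈ A
      · have hn : x ∉ Ω \ A := fun h => h.2 hA
        rw [pw_succ_not_mem μ (n + 1) y hn, zero_add, tsum_eq_single x]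
        · rw [Set.indicator_of_mem (Set.mem_inter hA hx), Finset.Nat.antidiagonal_succ,
            Finset.sum_cons, pw_zero_self, one_mul, pw_succ_mem μ (n + 1) y hx]
          simp only [Finset.sum_map, Function.Embedding.coe_prodMap, Prod.map_fst,
            Function.Embedding.coeFn_mk, pw_succ_not_mem μ _ _ hn, zero_mul,
            Finset.sum_const_zero, add_zero]
        · intro z hz
          by_cases h : z ∈ A ∩ Ω
          · rw [Set.indicator_of_mem h, Finset.Nat.antidiagonal_succ,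
              Finset.sum_cons, pw_zero_ne μ _ (Ne.symm hz), zero_mul, zero_add]
            simp only [Finset.sum_map, Function.Embedding.coe_prodMap, Prod.map_fst,
              Function.Embedding.coeFn_mk, pw_succ_not_mem μ _ _ hn, zero_mul,
              Finset.sum_const_zero]
          · rw [Set.indicator_of_notMem h]
      · have hm : x ∈ Ω \ A := ⟨hx, hA⟩
        rw [pw_succ_mem μ (n + 1) y hx, pw_succ_mem μ (n + 1) y hm]
        simp_rw [ih, mul_add]
        rw [ENNReal.tsum_add]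
        congr 1
        rw [tsum_congr fun s => (ENNReal.tsum_mul_left (a := μ s)).symm]
        rw [ENNReal.tsum_comm]
        refine tsum_congr fun z => ?_
        by_cases h : z ∈ A ∩ Ω
        · simp only [Set.indicator_of_mem h]
          rw [Finset.Nat.antidiagonal_succ, Finset.sum_cons,
            pw_zero_ne μ _ (fun e : x = z => hA (e ▸ h.1)), zero_mul, zero_add]
          simp only [Finset.sum_map, Function.Embedding.coe_prodMap, Prod.map_fst, Prod.map_snd,
            Function.Embedding.coeFn_mk, Function.Embedding.refl_apply, pw_succ_mem μ _ _ hm,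
            Finset.mul_sum]
          rw [Summable.tsum_finsetSum (fun _ _ => ENNReal.summable)]
          refine Finset.sum_congr rfl fun p _ => ?_
          rw [← ENNReal.tsum_mul_right]
          exact tsum_congr fun s => by rw [mul_assoc]
        · simp only [Set.indicator_of_notMem h, mul_zero, tsum_zero]
    · have hn : x ∉ Ω \ A := fun h => hx h.1
      rw [pw_succ_not_mem μ (n + 1) y hx, pw_succ_not_mem μ (n + 1) y hn, zero_add]
      symm
      rw [ENNReal.tsum_eq_zero]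
      intro z
      by_cases h : z ∈ A ∩ Ω
      · rw [Set.indicator_of_mem h, Finset.Nat.antidiagonal_succ,
          Finset.sum_cons, pw_zero_ne μ _ (fun e : x = z => hx (e ▸ h.2)), zero_mul, zero_add]
        simp only [Finset.sum_map, Function.Embedding.coe_prodMap, Prod.map_fst,
          Function.Embedding.coeFn_mk, pw_succ_not_mem μ _ _ hn, zero_mul,
          Finset.sum_const_zero]
      · rw [Set.indicator_of_notMem h]

/-- last-visit version -/
theorem pw_res2 (Ω A : Set Γ) (n : ℕ) (x y : Γ) :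
    pw μ Ω (n + 1) x y = pw μ (Ω \ A) (n + 1) x y +
      ∑' z, Set.indicator (A ∩ Ω) (fun z => ∑ p ∈ Finset.HasAntidiagonal.antidiagonal n,
        pw μ Ω p.1 x z * ∑' s, μ s * pw μ (Ω \ A) p.2 (z * s) y) z := by
  classical
  induction n generalizing x with
  | zero =>
    have := pw_res1 μ Ω A 0 x y
    simp only [Finset.Nat.antidiagonal_zero, Finset.sum_singleton] at this ⊢
    exact this
  | succ n ih =>
    by_cases hx : x ∈ Ω
    · rw [pw_succ_mem μ (n + 1) y hx]
      have e1 : ∑' s, μ s * pw μ Ω (n + 1) (x * s) y =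
          ∑' s, μ s * pw μ (Ω \ A) (n + 1) (x * s) y +
          ∑' s, μ s * ∑' z, Set.indicator (A ∩ Ω) (fun z =>
            ∑ p ∈ Finset.HasAntidiagonal.antidiagonal n,
            pw μ Ω p.1 (x * s) z * ∑' s, μ s * pw μ (Ω \ A) p.2 (z * s) y) z := by
        rw [← ENNReal.tsum_add]
        exact tsum_congr fun s => by rw [ih, mul_add]
      have e2 : ∑' s, μ s * ∑' z, Set.indicator (A ∩ Ω) (fun z =>
            ∑ p ∈ Finset.HasAntidiagonal.antidiagonal n,
            pw μ Ω p.1 (x * s) z * ∑' s, μ s * pw μ (Ω \ A) p.2 (z * s) y) z =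
          ∑' z, Set.indicator (A ∩ Ω) (fun z =>
            ∑ p ∈ Finset.HasAntidiagonal.antidiagonal n,
            pw μ Ω (p.1 + 1) x z * ∑' s, μ s * pw μ (Ω \ A) p.2 (z * s) y) z := by
        rw [tsum_congr fun s => (ENNReal.tsum_mul_left (a := μ s)).symm, ENNReal.tsum_comm]
        refine tsum_congr fun z => ?_
        by_cases h : z ∈ A ∩ Ω
        · simp only [Set.indicator_of_mem h, pw_succ_mem μ _ _ hx, Finset.mul_sum]
          rw [Summable.tsum_finsetSum (fun _ _ => ENNReal.summable)]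
          refine Finset.sum_congr rfl fun p _ => ?_
          rw [← ENNReal.tsum_mul_right]
          exact tsum_congr fun s => by rw [mul_assoc]
        · simp only [Set.indicator_of_notMem h, mul_zero, tsum_zero]
      have e3 : ∀ z, Set.indicator (A ∩ Ω) (fun z =>
            ∑ p ∈ Finset.HasAntidiagonal.antidiagonal (n + 1),
            pw μ Ω p.1 x z * ∑' s, μ s * pw μ (Ω \ A) p.2 (z * s) y) z =
          Set.indicator (A ∩ Ω) (fun z => pw μ Ω 0 x z *
            ∑' s, μ s * pw μ (Ω \ A) (n + 1) (z * s) y) z +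
          Set.indicator (A ∩ Ω) (fun z =>
            ∑ p ∈ Finset.HasAntidiagonal.antidiagonal n,
            pw μ Ω (p.1 + 1) x z * ∑' s, μ s * pw μ (Ω \ A) p.2 (z * s) y) z := by
        intro z
        by_cases h : z ∈ A ∩ Ω
        · simp only [Set.indicator_of_mem h]
          rw [Finset.Nat.antidiagonal_succ, Finset.sum_cons]
          simp only [Finset.sum_map, Function.Embedding.coe_prodMap, Prod.map_fst, Prod.map_snd,
            Function.Embedding.coeFn_mk, Function.Embedding.refl_apply]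
        · simp only [Set.indicator_of_notMem h, add_zero]
      rw [e1, e2, tsum_congr e3, ENNReal.tsum_add, ← add_assoc]
      congr 1
      by_cases hA : x ∈ A
      · rw [pw_succ_not_mem μ (n + 1) y (fun h : x ∈ Ω \ A => h.2 hA), zero_add]
        symm
        rw [tsum_eq_single x]
        · rw [Set.indicator_of_mem (Set.mem_inter hA hx), pw_zero_self, one_mul]
        · intro z hz
          by_cases h : z ∈ A ∩ Ω
          · rw [Set.indicator_of_mem h, pw_zero_ne μ _ (Ne.symm hz), zero_mul]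
          · rw [Set.indicator_of_notMem h]
      · rw [pw_succ_mem μ (n + 1) y (show x ∈ Ω \ A from ⟨hx, hA⟩)]
        have : ∀ z, Set.indicator (A ∩ Ω) (fun z => pw μ Ω 0 x z *
            ∑' s, μ s * pw μ (Ω \ A) (n + 1) (z * s) y) z = 0 := by
          intro z
          by_cases h : z ∈ A ∩ Ω
          · rw [Set.indicator_of_mem h, pw_zero_ne μ _ (fun e : x = z => hA (e ▸ h.1)), zero_mul]
          · rw [Set.indicator_of_notMem h]
        simp only [this, tsum_zero, add_zero]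
    · have hn : x ∉ Ω \ A := fun h => hx h.1
      rw [pw_succ_not_mem μ (n + 1) y hx, pw_succ_not_mem μ (n + 1) y hn, zero_add]
      symm
      rw [ENNReal.tsum_eq_zero]
      intro z
      by_cases h : z ∈ A ∩ Ω
      · rw [Set.indicator_of_mem h, Finset.Nat.antidiagonal_succ,
          Finset.sum_cons, pw_zero_ne μ _ (fun e : x = z => hx (e ▸ h.2)), zero_mul, zero_add]
        simp only [Finset.sum_map, Function.Embedding.coe_prodMap, Prod.map_fst,
          Function.Embedding.coeFn_mk, pw_succ_not_mem μ _ _ hx, zero_mul,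
          Finset.sum_const_zero]
      · rw [Set.indicator_of_notMem h]

/-- **First resolvent identity** (first visit of `A ∩ Ω`). -/
theorem Gr_res1 (Ω A : Set Γ) (x y : Γ) :
    Gr μ Ω x y = Gr μ (Ω \ A) x y +
      ∑' z, Set.indicator (A ∩ Ω) (fun z => Gr μ (Ω \ A) x z * ∑' s, μ s * Gr μ Ω (z * s) y) z := by
  have h0 : pw μ Ω 0 x y = pw μ (Ω \ A) 0 x y := by classical rw [pw_zero, pw_zero]
  have h1 : ∑' z, Set.indicator (A ∩ Ω) (fun z =>
      Gr μ (Ω \ A) x z * ∑' s, μ s * Gr μ Ω (z * s) y) z =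
      ∑' n, ∑' z, Set.indicator (A ∩ Ω) (fun z =>
        ∑ p ∈ Finset.HasAntidiagonal.antidiagonal n,
        pw μ (Ω \ A) p.1 x z * ∑' s, μ s * pw μ Ω p.2 (z * s) y) z := by
    rw [ENNReal.tsum_comm]
    refine tsum_congr fun z => ?_
    by_cases h : z ∈ A ∩ Ω
    · simp only [Set.indicator_of_mem h]
      refine Eq.trans ?_ (ennreal_cauchy (fun i => pw μ (Ω \ A) i x z)
        (fun j => ∑' s, μ s * pw μ Ω j (z * s) y))
      unfold Gr
      congr 1
      rw [ENNReal.tsum_comm]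
      exact tsum_congr fun s => ENNReal.tsum_mul_left.symm
    · simp only [Set.indicator_of_notMem h, tsum_zero]
  rw [h1]
  unfold Gr
  rw [tsum_eq_zero_add' (f := fun n => pw μ Ω n x y) ENNReal.summable,
    tsum_eq_zero_add' (f := fun n => pw μ (Ω \ A) n x y) ENNReal.summable, h0, add_assoc,
    ← ENNReal.tsum_add]
  congr 1
  exact tsum_congr fun n => pw_res1 μ Ω A n x y

/-- **Second resolvent identity** (last visit of `A ∩ Ω`). -/
theorem Gr_res2 (Ω A : Set Γ) (x y : Γ) :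
    Gr μ Ω x y = Gr μ (Ω \ A) x y +
      ∑' z, Set.indicator (A ∩ Ω) (fun z => Gr μ Ω x z * ∑' s, μ s * Gr μ (Ω \ A) (z * s) y) z := by
  have h0 : pw μ Ω 0 x y = pw μ (Ω \ A) 0 x y := by classical rw [pw_zero, pw_zero]
  have h1 : ∑' z, Set.indicator (A ∩ Ω) (fun z =>
      Gr μ Ω x z * ∑' s, μ s * Gr μ (Ω \ A) (z * s) y) z =
      ∑' n, ∑' z, Set.indicator (A ∩ Ω) (fun z =>
        ∑ p ∈ Finset.HasAntidiagonal.antidiagonal n,
        pw μ Ω p.1 x z * ∑' s, μ s * pw μ (Ω \ A) p.2 (z * s) y) z := by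
    rw [ENNReal.tsum_comm]
    refine tsum_congr fun z => ?_
    by_cases h : z ∈ A ∩ Ω
    · simp only [Set.indicator_of_mem h]
      refine Eq.trans ?_ (ennreal_cauchy (fun i => pw μ Ω i x z)
        (fun j => ∑' s, μ s * pw μ (Ω \ A) j (z * s) y))
      unfold Gr
      congr 1
      rw [ENNReal.tsum_comm]
      exact tsum_congr fun s => ENNReal.tsum_mul_left.symm
    · simp only [Set.indicator_of_notMem h, tsum_zero]
  rw [h1]
  unfold Gr
  rw [tsum_eq_zero_add' (f := fun n => pw μ Ω n x y) ENNReal.summable,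
    tsum_eq_zero_add' (f := fun n => pw μ (Ω \ A) n x y) ENNReal.summable, h0, add_assoc,
    ← ENNReal.tsum_add]
  congr 1
  exact tsum_congr fun n => pw_res2 μ Ω A n x y

/-- exit mass at most one -/
theorem exit_le_one (Ω : Set Γ) (x : Γ) :
    ∑' y, Set.indicator Ωᶜ (fun y => Gr μ Ω x y) y ≤ 1 := by
  classical
  have key : ∀ N (x : Γ), ∑ n ∈ Finset.range N, ∑' y, Set.indicator Ωᶜ (fun y => pw μ Ω n x y) y ≤ 1 := by
    intro N
    induction N with
    | zero => intro x; simp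
    | succ N ih =>
      intro x
      rw [Finset.sum_range_succ']
      by_cases hx : x ∈ Ω
      · have h0 : ∑' y, Set.indicator Ωᶜ (fun y => pw μ Ω 0 x y) y = 0 := by
          rw [ENNReal.tsum_eq_zero]
          intro y
          by_cases hy : y ∈ Ωᶜ
          · rw [Set.indicator_of_mem hy, pw_zero_ne]
            rintro rfl; exact hy hx
          · rw [Set.indicator_of_notMem hy]
        rw [h0, add_zero]
        have h1 : ∀ n, ∑' y, Set.indicator Ωᶜ (fun y => pw μ Ω (n + 1) x y) y =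
            ∑' s, μ s * ∑' y, Set.indicator Ωᶜ (fun y => pw μ Ω n (x * s) y) y := by
          intro n
          rw [tsum_congr fun s => (ENNReal.tsum_mul_left (a := μ s)).symm, ENNReal.tsum_comm]
          refine tsum_congr fun y => ?_
          by_cases hy : y ∈ Ωᶜ
          · simp only [Set.indicator_of_mem hy, pw_succ_mem μ n y hx]
          · simp only [Set.indicator_of_notMem hy, mul_zero, tsum_zero]
        rw [Finset.sum_congr rfl fun n _ => h1 n,
          ← Summable.tsum_finsetSum (fun _ _ => ENNReal.summable)]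
        calc ∑' s, ∑ n ∈ Finset.range N, μ s *
              ∑' y, Set.indicator Ωᶜ (fun y => pw μ Ω n (x * s) y) y
            ≤ ∑' s, μ s * 1 := by
              refine ENNReal.tsum_le_tsum fun s => ?_
              rw [← Finset.mul_sum]
              gcongr
              exact ih (x * s)
          _ = 1 := by simp only [mul_one]; exact μ.tsum_coe
      · have h1 : ∀ n, ∑' y, Set.indicator Ωᶜ (fun y => pw μ Ω (n + 1) x y) y = 0 := by
          intro n
          rw [ENNReal.tsum_eq_zero]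
          intro y
          by_cases hy : y ∈ Ωᶜ
          · rw [Set.indicator_of_mem hy, pw_succ_not_mem μ n y hx]
          · rw [Set.indicator_of_notMem hy]
        rw [Finset.sum_eq_zero fun n _ => h1 n, zero_add]
        rw [tsum_eq_single x]
        · rw [Set.indicator_of_mem (show x ∈ Ωᶜ from hx), pw_zero_self]
        · intro y hy
          by_cases hy' : y ∈ Ωᶜ
          · rw [Set.indicator_of_mem hy', pw_zero_ne μ _ (Ne.symm hy)]
          · rw [Set.indicator_of_notMem hy']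
  have e : ∑' y, Set.indicator Ωᶜ (fun y => Gr μ Ω x y) y =
      ∑' n, ∑' y, Set.indicator Ωᶜ (fun y => pw μ Ω n x y) y := by
    rw [ENNReal.tsum_comm]
    refine tsum_congr fun y => ?_
    by_cases hy : y ∈ Ωᶜ
    · simp only [Set.indicator_of_mem hy]; rfl
    · simp only [Set.indicator_of_notMem hy, tsum_zero]
  rw [e, ENNReal.tsum_eq_iSup_nat]
  exact iSup_le fun N => key N x

theorem Gr_exit_le_one {Ω : Set Γ} (x : Γ) {y : Γ} (hy : y ∉ Ω) : Gr μ Ω x y ≤ 1 := by
  refine le_trans ?_ (exit_le_one μ Ω x)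
  refine le_trans ?_ (ENNReal.le_tsum y)
  rw [Set.indicator_of_mem (show y ∈ Ωᶜ from hy)]

/-- the first visit of a point -/
theorem Gr_eq_first (Ω : Set Γ) (x z : Γ) :
    Gr μ Ω x z = Gr μ (Ω \ {z}) x z * Gr μ Ω z z := by
  have h := Gr_res1 μ Ω {z} x z
  by_cases hz : z ∈ Ω
  · rw [tsum_eq_single z] at h
    · rw [Set.indicator_of_mem (show z ∈ {z} ∩ Ω from ⟨rfl, hz⟩)] at h
      rw [h, Gr_mem μ z hz, pw_zero_self, mul_add, mul_one]
    · intro w hw
      rw [Set.indicator_of_notMem]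
      intro hw'; exact hw hw'.1
  · have h1 : Gr μ Ω z z = 1 := by rw [Gr_not_mem μ z hz, pw_zero_self]
    have h2 : Ω \ {z} = Ω := by
      ext w
      simp only [Set.mem_sdiff, Set.mem_singleton_iff, and_iff_left_iff_imp]
      rintro hw rfl; exact hz hw
    rw [h1, mul_one, h2]

theorem Gr_first_mul_le (Ω : Set Γ) (x z y : Γ) :
    Gr μ (Ω \ {z}) x z * Gr μ Ω z y ≤ Gr μ Ω x y := by
  by_cases hy : z = y
  · subst hy
    rw [← Gr_eq_first]
  · by_cases hz : z ∈ Ω
    · rw [Gr_res1 μ Ω {z} x y]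
      refine le_trans ?_ le_add_self
      refine le_trans ?_ (ENNReal.le_tsum z)
      rw [Set.indicator_of_mem (show z ∈ {z} ∩ Ω from ⟨rfl, hz⟩), Gr_mem_ne μ hz hy]
    · rw [Gr_not_mem μ y hz, pw_zero_ne μ _ hy, mul_zero]
      exact zero_le

/-- **chain inequality** -/
theorem Gr_mul_le (Ω : Set Γ) (x z y : Γ) :
    Gr μ Ω x z * Gr μ Ω z y ≤ Gr μ Ω z z * Gr μ Ω x y := by
  rw [Gr_eq_first μ Ω x z, mul_comm (Gr μ (Ω \ {z}) x z), mul_assoc]
  gcongr
  exact Gr_first_mul_le μ Ω x z y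

theorem Gr_le_diag (Ω : Set Γ) (x y : Γ) : Gr μ Ω x y ≤ Gr μ Ω y y := by
  rw [Gr_eq_first μ Ω x y]
  calc Gr μ (Ω \ {y}) x y * Gr μ Ω y y ≤ 1 * Gr μ Ω y y := by
        gcongr
        exact Gr_exit_le_one μ x (fun h => h.2 rfl)
    _ = _ := one_mul _

theorem Gr_univ_diag (x : Γ) : Gr μ Set.univ x x = Gr μ Set.univ 1 1 := by
  rw [Gr_univ_eq, inv_mul_cancel]

theorem Gr_le_G0 (Ω : Set Γ) (x y : Γ) : Gr μ Ω x y ≤ Gr μ Set.univ 1 1 := by
  refine (Gr_le_diag μ Ω x y).trans ?_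
  rw [← Gr_univ_diag μ y]
  exact Gr_mono μ (Set.subset_univ _) y y

/-- chain inequality with the uniform constant -/
theorem Gr_chain (Ω : Set Γ) (x z y : Γ) :
    Gr μ Ω x z * Gr μ Ω z y ≤ Gr μ Set.univ 1 1 * Gr μ Ω x y :=
  (Gr_mul_le μ Ω x z y).trans (by gcongr; exact Gr_le_G0 μ Ω z z)

/-- positivity is transitive -/
theorem Gr_ne_zero_trans {Ω : Set Γ} {x z y : Γ} (h1 : Gr μ Ω x z ≠ 0) (h2 : Gr μ Ω z y ≠ 0) :
    Gr μ Ω x y ≠ 0 := by
  intro h
  have h3 := Gr_mul_le μ Ω x z y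
  rw [h, mul_zero] at h3
  have h4 := nonpos_iff_eq_zero.mp h3
  rcases mul_eq_zero.mp h4 with h5 | h5
  · exact h1 h5
  · exact h2 h5

theorem Gr_zero_le_pw (Ω : Set Γ) (n : ℕ) (x y : Γ) : pw μ Ω n x y ≤ Gr μ Ω x y :=
  ENNReal.le_tsum n

/-- if `Gr Ω x y ≠ 0` then some `pw` is nonzero -/
theorem exists_pw {Ω : Set Γ} {x y : Γ} (h : Gr μ Ω x y ≠ 0) : ∃ n, pw μ Ω n x y ≠ 0 := by
  by_contra hc
  push Not at hc
  apply h
  unfold Gr
  simp [hc]

/-- a path of positive weight -/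
theorem exists_path {Ω : Set Γ} {x y : Γ} {n : ℕ} (h : pw μ Ω n x y ≠ 0) :
    ∃ p : ℕ → Γ, p 0 = x ∧ p n = y ∧ (∀ i < n, p i ∈ Ω) ∧ ∀ i < n, μ ((p i)⁻¹ * p (i + 1)) ≠ 0 := by
  classical
  induction n generalizing x with
  | zero =>
    rw [pw_zero] at h
    have hxy : x = y := by
      by_contra hc; exact h (if_neg hc)
    exact ⟨fun _ => x, rfl, hxy, fun i hi => absurd hi (by omega), fun i hi => absurd hi (by omega)⟩
  | succ n ih =>
    by_cases hx : x ∈ Ω
    · rw [pw_succ_mem μ n y hx] at h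
      have : ∃ s, μ s * pw μ Ω n (x * s) y ≠ 0 := by
        by_contra hc
        push Not at hc
        exact h (by simp [hc])
      obtain ⟨s, hs⟩ := this
      have hs1 : μ s ≠ 0 := fun e => hs (by rw [e, zero_mul])
      have hs2 : pw μ Ω n (x * s) y ≠ 0 := fun e => hs (by rw [e, mul_zero])
      obtain ⟨p, hp0, hpn, hpΩ, hpμ⟩ := ih hs2
      refine ⟨fun i => if i = 0 then x else p (i - 1), by simp, by simp [hpn], ?_, ?_⟩
      · intro i hi
        rcases Nat.eq_zero_or_pos i with h0 | h0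
        · simp [h0, hx]
        · simp only [h0.ne', if_false]
          exact hpΩ _ (by omega)
      · intro i hi
        rcases Nat.eq_zero_or_pos i with h0 | h0
        · subst h0
          simp [hp0, hs1]
        · simp only [h0.ne', if_false, Nat.add_sub_cancel, Nat.succ_ne_zero]
          have := hpμ (i - 1) (by omega)
          rwa [Nat.sub_add_cancel h0] at this
    · exact absurd (pw_succ_not_mem μ n y hx) h

/-- conversely, paths give lower bounds -/
theorem path_le {Ω : Set Γ} (n : ℕ) (p : ℕ → Γ) (hΩ : ∀ i < n, p i ∈ Ω) :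
    ∏ i ∈ Finset.range n, μ ((p i)⁻¹ * p (i + 1)) ≤ pw μ Ω n (p 0) (p n) := by
  classical
  induction n generalizing p with
  | zero => simp [pw_zero]
  | succ n ih =>
    rw [pw_succ_mem μ n _ (hΩ 0 (by omega)), Finset.prod_range_succ', mul_comm]
    refine le_trans ?_ (ENNReal.le_tsum ((p 0)⁻¹ * p 1))
    rw [mul_inv_cancel_left]
    gcongr
    exact ih (fun i => p (i + 1)) (fun i hi => hΩ (i + 1) (by omega))

variable {μ}

theorem exp_tail {K : ℝ} (hK : 1 ≤ K) :
    Summable (fun n : ℕ => Real.exp (-(n : ℝ) / K)) ∧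
      ∑' n : ℕ, Real.exp (-(n : ℝ) / K) ≤ 1 + K := by
  have hK0 : 0 < K := by linarith
  have hr : Real.exp (-1 / K) ≤ K / (K + 1) := by
    have h1 : 1 + 1 / K ≤ Real.exp (1 / K) := by
      have := Real.add_one_le_exp (1 / K); linarith
    have h2 : Real.exp (-1 / K) = (Real.exp (1 / K))⁻¹ := by
      rw [← Real.exp_neg]; congr 1; ring
    rw [h2, inv_le_comm₀ (Real.exp_pos _) (by positivity)]
    calc (K / (K + 1))⁻¹ = 1 + 1 / K := by field_simp
      _ ≤ _ := h1
  have hr1 : Real.exp (-1 / K) < 1 := by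
    refine lt_of_le_of_lt hr ?_
    rw [div_lt_one (by linarith)]; linarith
  have e : (fun n : ℕ => Real.exp (-(n : ℝ) / K)) = fun n : ℕ => Real.exp (-1 / K) ^ n := by
    funext n
    rw [← Real.exp_nat_mul]; congr 1; ring
  rw [e]
  refine ⟨summable_geometric_of_lt_one (Real.exp_pos _).le hr1, ?_⟩
  rw [tsum_geometric_of_lt_one (Real.exp_pos _).le hr1]
  rw [inv_le_comm₀ (by linarith) (by linarith)]
  have h3 : K / (K + 1) = 1 - (1 + K)⁻¹ := by field_simp; ring
  rw [h3] at hr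
  linarith

theorem Wk.G0_le {Q : Geo Γ} {K : ℝ} (h : Wk Q μ K) :
    Gr μ Set.univ 1 1 ≤ ENNReal.ofReal (1 + K) := by
  obtain ⟨h1, h2⟩ := exp_tail h.one_le
  calc Gr μ Set.univ 1 1 ≤ ∑' n : ℕ, ENNReal.ofReal (Real.exp (-(n : ℝ) / K)) :=
        ENNReal.tsum_le_tsum fun n => h.gap n 1 1
    _ = ENNReal.ofReal (∑' n : ℕ, Real.exp (-(n : ℝ) / K)) :=
        (ENNReal.ofReal_tsum_of_nonneg (fun n => (Real.exp_pos _).le) h1).symm
    _ ≤ _ := ENNReal.ofReal_le_ofReal h2

theorem Wk.G0_ne_top {Q : Geo Γ} {K : ℝ} (h : Wk Q μ K) : Gr μ Set.univ 1 1 ≠ ∞ :=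
  ne_top_of_le_ne_top ENNReal.ofReal_ne_top h.G0_le

theorem Wk.Gr_ne_top {Q : Geo Γ} {K : ℝ} (h : Wk Q μ K) (Ω : Set Γ) (x y : Γ) :
    Gr μ Ω x y ≠ ∞ :=
  ne_top_of_le_ne_top h.G0_ne_top (Gr_le_G0 μ Ω x y)

/-! ### elementary facts on `Geo` -/

theorem Geo.d_self (Q : Geo Γ) (x : Γ) : Q.d x x = 0 := by
  unfold Geo.d; rw [inv_mul_cancel, Q.one]

theorem Geo.d_nonneg (Q : Geo Γ) (x y : Γ) : 0 ≤ Q.d x y := Q.nonneg _

theorem Geo.d_comm (Q : Geo Γ) (x y : Γ) : Q.d x y = Q.d y x := by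
  unfold Geo.d; rw [← Q.inv, mul_inv_rev, inv_inv]

theorem Geo.d_tri (Q : Geo Γ) (x y z : Γ) : Q.d x z ≤ Q.d x y + Q.d y z := by
  unfold Geo.d
  have := Q.mul (x⁻¹ * y) (y⁻¹ * z)
  rwa [mul_assoc, mul_inv_cancel_left] at this

theorem Geo.d_left (Q : Geo Γ) (g x y : Γ) : Q.d (g * x) (g * y) = Q.d x y := by
  unfold Geo.d; rw [mul_inv_rev, mul_assoc, inv_mul_cancel_left]

theorem Geo.d_one (Q : Geo Γ) (x : Γ) : Q.d 1 x = Q.L x := by
  unfold Geo.d; rw [inv_one, one_mul]

theorem Geo.d_four (Q : Geo Γ) (x y z w : Γ) :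
    Q.d x z + Q.d y w ≤ max (Q.d x y + Q.d z w) (Q.d x w + Q.d y z) + Q.C := Q.four x y z w

theorem Geo.gp_comm (Q : Geo Γ) (x y z : Γ) : Q.gp x y z = Q.gp y x z := by
  unfold Geo.gp; rw [Q.d_comm x y]; ring

theorem Geo.gp_nonneg (Q : Geo Γ) (x y z : Γ) : 0 ≤ Q.gp x y z := by
  unfold Geo.gp
  have := Q.d_tri x z y
  rw [Q.d_comm x z] at this
  linarith

theorem Geo.gp_le_left (Q : Geo Γ) (x y z : Γ) : Q.gp x y z ≤ Q.d z x := by
  unfold Geo.gp
  have := Q.d_tri z x y
  linarith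

theorem Geo.gp_le_right (Q : Geo Γ) (x y z : Γ) : Q.gp x y z ≤ Q.d z y := by
  rw [Q.gp_comm]; exact Q.gp_le_left y x z

/-- hyperbolicity in terms of Gromov products -/
theorem Geo.gp_min (Q : Geo Γ) (x y w z : Γ) :
    min (Q.gp x w z) (Q.gp w y z) - Q.C / 2 ≤ Q.gp x y z := by
  have h := Q.d_four x w y z
  unfold Geo.gp
  rw [Q.d_comm w z, Q.d_comm y z, Q.d_comm x z] at h
  rcases le_total (Q.d x w + Q.d z y) (Q.d z x + Q.d w y) with h1 | h1
  · rw [max_eq_right h1] at h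
    refine le_trans (sub_le_sub_right (min_le_right _ _) _) ?_
    linarith
  · rw [max_eq_left h1] at h
    refine le_trans (sub_le_sub_right (min_le_left _ _) _) ?_
    linarith

/-- coarse geodesics in terms of `d` -/
theorem Geo.d_geod (Q : Geo Γ) (x y : Γ) (t : ℝ) (h0 : 0 ≤ t) (h1 : t ≤ Q.d x y) :
    ∃ p, Q.d x p ≤ t + Q.C ∧ Q.d p y ≤ Q.d x y - t + Q.C := by
  obtain ⟨p, hp1, hp2⟩ := Q.geod (x⁻¹ * y) t h0 h1
  refine ⟨x * p, ?_, ?_⟩
  · unfold Geo.d; rwa [inv_mul_cancel_left]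
  · unfold Geo.d; rwa [mul_inv_rev, mul_assoc]

end Pool.Agent.Helper12.GM
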