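import Pool.Agent.Helper12.GM.Defs

/-!
# Exact statements of the modules (proofs: /team-store/h12_green.md, table gm_mods)
-/

open scoped ENNReal UpperHalfPlane MatrixGroups Topology
open UpperHalfPlane Real Filter

namespace Pool.Agent.Helper12.GM

/-! ## 1. Hyperbolic plane, Fuchsian groups -/

/-- squared Frobenius norm -/
def nsq (A : Matrix (Fin 2) (Fin 2) ℝ) : ℝ := A 0 0 ^ 2 + A 0 1 ^ 2 + A 1 0 ^ 2 + A 1 1 ^ 2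

/-- the eigenvalue of modulus `> 1` (up to sign) of a hyperbolic matrix -/
noncomputable def lamb (A : SL(2, ℝ)) : ℝ := (|A.1.trace| + √(A.1.trace ^ 2 - 4)) / 2

def ST_FOUR : Prop := ∀ x y z w : ℍ,
  dist x z + dist y w ≤ max (dist x y + dist z w) (dist x w + dist y z) + 8 * Real.log 2

def ST_GEODH : Prop := ∀ (x y : ℍ) (t : ℝ), 0 ≤ t → t ≤ dist x y →
  ∃ p : ℍ, dist x p ≤ t + 6 ∧ dist p y ≤ dist x y - t + 6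

def ST_NORM : Prop := ∀ A : SL(2, ℝ), 2 * Real.cosh (dist (I : ℍ) (A • (I : ℍ))) = nsq A.1

def ST_UPPER : Prop := ∀ {Γ : Type} [Group Γ] (X : Fuchs Γ), ∃ C : ℝ, 1 ≤ C ∧ ∀ t : ℝ, 0 ≤ t →
  ({g | X.L g ≤ t}.ncard : ℝ) ≤ C * Real.exp t

def ST_LOWER : Prop := ∀ {Γ : Type} [Group Γ] (X : Fuchs Γ), ∃ C : ℝ, 1 ≤ C ∧ ∀ t : ℝ, 0 ≤ t →
  Real.exp t ≤ C * ({g | t - C ≤ X.L g ∧ X.L g ≤ t + C}.ncard : ℝ)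

/-- the matrices have no common eigenvector -/
def ST_IRR : Prop := ∀ {Γ : Type} [Group Γ] (X : Fuchs Γ),
  ¬ ∃ v : Fin 2 → ℝ, v ≠ 0 ∧ ∀ g, ∃ a : ℝ, (X.M g).1.mulVec v = a • v

def ST_CONN : Prop := ∀ {Γ : Type} [Group Γ] (X : Fuchs Γ), ∃ (F : Finset Γ) (c : ℝ), 0 < c ∧
  ∀ P Q : Matrix (Fin 2) (Fin 2) ℝ, ∃ f ∈ F, c * (nsq P * nsq Q) ≤ nsq (P * (X.M f).1 * Q)

def ST_GEO : Prop := ∀ {Γ : Type} [Group Γ] (X : Fuchs Γ), ∃ Q : Geo Γ, Q.L = X.L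

def ST_NF : Prop := ∀ {Γ : Type} [Group Γ] (X : Fuchs Γ), ∃ Y : NFuchs Γ,
  ∀ g, |(Y.M g).1.trace| = |(X.M g).1.trace|

def ST_TAU : Prop := ∀ A : SL(2, ℝ), 2 < |A.1.trace| →
  Tendsto (fun n : ℕ => dist (I : ℍ) (A ^ n • (I : ℍ)) / n) atTop (𝓝 (2 * Real.log (lamb A)))

def ST_TLEN : Prop := ∀ A : SL(2, ℝ), 2 < |A.1.trace| →
  ⨅ z : ℍ, dist z (A • z) = 2 * Real.log (lamb A)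

/-- the set and the two elements of the paradoxical decomposition -/
def ParSet {Γ : Type} [Group Γ] (A : Set Γ) (g h : Γ) : Prop :=
  (∀ x, x ∈ A ∨ x * g ∈ A) ∧ (∀ x ∈ A, x * h ∉ A ∧ x * h * h ∉ A)

def ST_PAR : Prop := ∀ {Γ : Type} [Group Γ] (_ : NFuchs Γ), ∃ (A : Set Γ) (g h : Γ), ParSet A g h

/-! ## 2. Random walks -/

/-- the conclusion of GAPA -/
def Kaz {Γ : Type} [Group Γ] (T : Finset Γ) (ε : ℝ) : Prop :=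
  0 < ε ∧ ∀ f : Γ →₀ ℝ, ∃ s ∈ T, ε * ∑' x, (f x) ^ 2 ≤ ∑' x, (f (x * s) - f x) ^ 2

def ST_GAPA : Prop := ∀ {Γ : Type} [Group Γ] (A : Set Γ) (g h : Γ), ParSet A g h →
  ∀ S : Set Γ, (∀ s ∈ S, s⁻¹ ∈ S) → Subgroup.closure S = ⊤ →
  ∃ (T : Finset Γ) (ε : ℝ), (T : Set Γ) ⊆ S ∧ Kaz T ε

def ST_GAPB : Prop := ∀ {Γ : Type} [Group Γ] (μ : PMF Γ), Adm μ → μ 1 ≠ 0 →
  ∀ (T : Finset Γ) (ε : ℝ), (T : Set Γ) ⊆ μ.support → Kaz T ε →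
  ∃ K : ℝ, 1 ≤ K ∧ ∀ (n : ℕ) (x y : Γ),
    pw μ Set.univ n x y ≤ ENNReal.ofReal (Real.exp (-(n : ℝ) / K))

def ST_HARN : Prop := ∀ {Γ : Type} [Group Γ] (Q : Geo Γ) (μ : PMF Γ), Adm μ → ∀ r : ℝ,
  ∃ (c r' : ℝ), 0 < c ∧ 0 ≤ r' ∧ ∀ (Ω : Set Γ) (x g : Γ), Q.L g ≤ r →
    (∀ y, Q.d x y ≤ r' → y ∈ Ω) → ENNReal.ofReal c ≤ Gr μ Ω x (x * g)

def ST_HLOW : Prop := ∀ {Γ : Type} [Group Γ] (Q : Geo Γ) (μ : PMF Γ) (K : ℝ), Wk Q μ K →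
  ∃ (c C₁ : ℝ), 0 < c ∧ 0 ≤ C₁ ∧
    ∀ x y, ENNReal.ofReal (c * Real.exp (-C₁ * Q.d x y)) ≤ Gr μ Set.univ x y

def ST_LOGL : Prop := ∀ {Γ : Type} [Group Γ] (Q : Geo Γ) (p : Γ) (k n : ℕ) (x : ℕ → Γ),
  1 ≤ n → n ≤ 2 ^ k → ∃ i < n, Q.gp (x i) (x (i + 1)) p ≤ Q.gp (x 0) (x n) p + k * Q.C

def ST_AVOID : Prop := ∀ {Γ : Type} [Group Γ] (Q : Geo Γ) (μ : PMF Γ) (K : ℝ), Wk Q μ K →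
  ∀ (w v p : Γ) (C₂ r : ℝ), Q.gp w v p ≤ C₂ → r < Q.d p w →
    Gr μ {x | r < Q.d p x} w v ≤
      ENNReal.ofReal (3 * (1 + K) * Real.exp (-(2 : ℝ) ^ ((r - C₂ - K) / Q.C - 1) / K))

/-- stability hypothesis of KA for a family `Y` seen from `z` in the domain `Ω` -/
def Stab {Γ : Type} [Group Γ] (Q : Geo Γ) (Ω : Set Γ) (z : Γ) (Y : Set Γ) (l₁ : ℝ) : Prop :=
  ∀ l, l₁ ≤ l → ∀ w ∈ Y, l < Q.d z w → Q.d z w ≤ 4 * l / 3 → ∀ p,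
    Q.d z p ≤ 2 * l / 3 + Q.C → Q.d p w ≤ Q.d z w - 2 * l / 3 + Q.C →
    ∀ u ∈ Ω, Q.d p u ≤ l / 20 → u ∈ Y

def ST_KA : Prop := ∀ {Γ : Type} [Group Γ] (Q : Geo Γ) (μ : PMF Γ) (K : ℝ), Wk Q μ K →
  ∀ (C₀ c C₁ l₁ : ℝ), 0 < c → ∃ K' : ℝ, ∀ (Ω : Set Γ) (z : Γ) (Y Z : Set Γ),
    (∀ u ∈ Y, ∀ v ∈ Z, Q.gp u v z ≤ C₀) → Stab Q Ω z Y l₁ → Stab Q Ω z Z l₁ →
    (∀ u ∈ Y, ∀ v ∈ Z, Gr μ Ω u v ≠ 0 →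
      ENNReal.ofReal (c * Real.exp (-C₁ * Q.d z u)) ≤ Gr μ Ω u z ∧
      ENNReal.ofReal (c * Real.exp (-C₁ * Q.d z v)) ≤ Gr μ Ω z v) →
    ∀ u ∈ Y, ∀ v ∈ Z, Gr μ Ω u v ≤ ENNReal.ofReal K' * (Gr μ Ω u z * Gr μ Ω z v)

/-- cones: stability and Gromov products -/
def ST_CONE : Prop := ∀ {Γ : Type} [Group Γ] (Q : Geo Γ),
  (∃ l₁ : ℝ, ∀ l, l₁ ≤ l → ∀ x z w p u, Q.d z w / 2 ≤ Q.gp w x z → l < Q.d z w →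
    Q.d z p ≤ 2 * l / 3 + Q.C → Q.d p w ≤ Q.d z w - 2 * l / 3 + Q.C → Q.d p u ≤ l / 20 →
    Q.d z u / 2 ≤ Q.gp u x z ∧ l / 2 ≤ Q.d z u) ∧
  (∀ (x x' z u v : Γ) (C₀ : ℝ), Q.gp x x' z ≤ C₀ → Q.d z u / 2 ≤ Q.gp u x z →
    Q.d z v / 2 ≤ Q.gp v x' z → Q.gp u v z ≤ 2 * C₀ + 2 * Q.C) ∧
  (∀ (x y z u : Γ) (C₀ : ℝ), Q.gp x y z ≤ C₀ → Q.d z u / 2 ≤ Q.gp u x z →
    2 * C₀ + Q.C < Q.d z u → Q.gp u y z ≤ C₀ + Q.C)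

def ST_ANC : Prop := ∀ {Γ : Type} [Group Γ] (Q : Geo Γ) (μ : PMF Γ) (K : ℝ), Wk Q μ K →
  ∀ C₁ : ℝ, ∃ K' : ℝ, ∀ g h, Q.L g + Q.L h ≤ Q.L (g * h) + C₁ →
    Gr μ Set.univ 1 (g * h) ≤ ENNReal.ofReal K' * (Gr μ Set.univ 1 g * Gr μ Set.univ 1 h)

def ST_ZFIN : Prop := ∀ {Γ : Type} [Group Γ] (Q : Geo Γ) (μ : PMF Γ) (K : ℝ), Wk Q μ K →
  ∀ s : ℝ, 0 < s → ∑' g, Gr μ Set.univ 1 g * ENNReal.ofReal (Real.exp (-s * Q.L g)) ≠ ∞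

def ST_GFM : Prop := ∀ {Γ : Type} [Group Γ] (Q : Geo Γ) (μ : PMF Γ) (K : ℝ), Wk Q μ K →
  GF Q (Fh μ)

def ST_LAZY : Prop := ∀ {Γ : Type} [Group Γ] (μ : PMF Γ), Adm μ →
  ∃ μ' : PMF Γ, Adm μ' ∧ μ' 1 ≠ 0 ∧ ∀ x y, Gr μ' Set.univ x y = 2 * Gr μ Set.univ x y

/-! ## 3. Part (B) -/

/-- `lim D(gⁿ)/n + lim D(g⁻ⁿ)/n = 2 lim L(gⁿ)/n` for all `g ≠ 1` -/
def StabEq {Γ : Type} [Group Γ] (Q : Geo Γ) (F : Γ → ℝ) : Prop :=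
  ∀ g, g ≠ 1 → ∀ a b c : ℝ,
    Tendsto (fun n : ℕ => -Real.log (F (g ^ n)) / n) atTop (𝓝 a) →
    Tendsto (fun n : ℕ => -Real.log (F (g⁻¹ ^ n)) / n) atTop (𝓝 b) →
    Tendsto (fun n : ℕ => Q.L (g ^ n) / n) atTop (𝓝 c) → a + b = 2 * c

def ST_QADD : Prop := ∀ {Γ : Type} [Group Γ] (Q : Geo Γ) (F : Γ → ℝ), GF Q F →
  (∀ C₁ : ℝ, ∃ K' : ℝ, ∀ g h, Q.L g + Q.L h ≤ Q.L (g * h) + C₁ →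
    |uu Q F (g * h) - uu Q F g - uu Q F h| ≤ K') ∧
  (∀ r : ℝ, ∃ K' : ℝ, ∀ g f, Q.L f ≤ r →
    |uu Q F (g * f) - uu Q F g| ≤ K' ∧ |uu Q F (f * g) - uu Q F g| ≤ K')

def ST_L2G : Prop := ∀ {Γ : Type} [Group Γ] (Q : Geo Γ) (C₁ : ℝ), ∃ H₁ C₂ : ℝ, 0 ≤ C₂ ∧
  ∀ h, 2 * Q.L h ≤ Q.L (h * h) + C₁ → H₁ ≤ Q.L h →
    ∀ n : ℕ, 1 ≤ n → Q.L (h ^ n) + Q.L h ≤ Q.L (h ^ (n + 1)) + C₂

def ST_SYM : Prop := ∀ {Γ : Type} [Group Γ] (Q : Geo Γ) (F : Γ → ℝ), GF Q F → StabEq Q F →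
  ∃ C' : ℝ, ∀ g, |uu Q F g + uu Q F g⁻¹| ≤ C'

def ST_SHELL : Prop := ∀ {Γ : Type} [Group Γ] (Q : Geo Γ) (F : Γ → ℝ), GF Q F →
  ∃ C' : ℝ, ∀ (t : ℝ) (T : Finset Γ), (∀ g ∈ T, t ≤ Q.L g ∧ Q.L g ≤ t + 1) → ∑ g ∈ T, F g ≤ C'

def ST_LIN : Prop := ∀ {Γ : Type} [Group Γ] (Q : Geo Γ) (F : Γ → ℝ), GF Q F →
  (∀ B : ℝ, ∃ g, B ≤ uu Q F g) →
  ∃ c₅ : ℝ, 0 < c₅ ∧ ∀ H₀ : ℝ, ∃ h, H₀ ≤ Q.L h ∧ c₅ * Q.L h ≤ uu Q F h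

/-- `h` occurs (coarsely) on the geodesic from `1` to `g` -/
def Occ {Γ : Type} [Group Γ] (Q : Geo Γ) (h : Γ) (C₂ : ℝ) (g : Γ) : Prop :=
  ∃ z, Q.L z + Q.L h + Q.L (h⁻¹ * z⁻¹ * g) ≤ Q.L g + C₂

def ST_OCC : Prop := ∀ {Γ : Type} [Group Γ] (Q : Geo Γ) (C₁ C₂ : ℝ), 0 ≤ C₁ → 0 ≤ C₂ →
  ∃ C' : ℝ, 0 ≤ C' ∧ ∀ (h : Γ) (t : ℝ), 0 ≤ t →
    ({g | Q.L g ≤ t + C₁ ∧ Occ Q h C₂ g}.ncard : ℝ) ≤ C' * (t + 1) * Real.exp (t - Q.L h)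

def ST_FIB : Prop := ∀ {Γ : Type} [Group Γ] (Q : Geo Γ), ∃ C₁ Co N : ℝ,
  0 ≤ C₁ ∧ 0 ≤ Co ∧ 0 ≤ N ∧ ∀ (h : Γ) (t : ℝ), 0 ≤ t → ∃ ins : Γ → ℕ → Γ,
    (∀ (g : Γ) (i : ℕ), t - Q.C ≤ Q.L g → Q.L g ≤ t + Q.C → (i : ℝ) ≤ t - Q.C →
      ∃ x f f' y, g = x * y ∧ f ∈ Q.F ∧ f' ∈ Q.F ∧ ins g i = x * f * h * f' * y ∧
        Q.L x + Q.L y ≤ Q.L g + C₁ ∧
        Q.L (x * f) + Q.L h ≤ Q.L (x * f * h) + C₁ ∧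
        Q.L (x * f * h) + Q.L (f' * y) ≤ Q.L (x * f * h * f' * y) + C₁ ∧
        t + Q.L h - C₁ ≤ Q.L (ins g i) ∧ Q.L (ins g i) ≤ t + Q.L h + C₁) ∧
    (∀ g', (({p : Γ × ℕ | t - Q.C ≤ Q.L p.1 ∧ Q.L p.1 ≤ t + Q.C ∧ (p.2 : ℝ) ≤ t - Q.C ∧
        ¬ Occ Q h Co p.1 ∧ ins p.1 p.2 = g'}.ncard : ℕ) : ℝ) ≤ N * (Q.L h + 1))

def ST_CNT : Prop := ∀ {Γ : Type} [Group Γ] (Q : Geo Γ) (F : Γ → ℝ), GF Q F →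
  (∃ C' : ℝ, ∀ g, |uu Q F g + uu Q F g⁻¹| ≤ C') →
  ∀ c₅ : ℝ, 0 < c₅ → ∃ H₀ : ℝ, ∀ h, H₀ ≤ Q.L h → uu Q F h < c₅ * Q.L h

def ST_BFIN : Prop := ∀ {Γ : Type} [Group Γ] (Q : Geo Γ) (F : Γ → ℝ), GF Q F → StabEq Q F →
  ∃ C' : ℝ, ∀ g, |uu Q F g| ≤ C'

/-! ## 4. Part (A): walls -/

section Walls

variable {Γ : Type} [Group Γ]

/-- hitting kernel of the wall `a B` starting from the wall `B`: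
`K_a (x, y) = P_x (the first point of a B is a y)` -/
noncomputable def kr (X : Fuchs Γ) (μ : PMF Γ) (κ : ℝ) (a : Γ) (x y : Bnd X κ) : ℝ :=
  (Gr μ (Lft X κ) (a⁻¹ * x) y).toReal

/-- all the properties of the walls that are used -/
structure Dom (X : NFuchs Γ) (Q : Geo Γ) (μ : PMF Γ) (K κ κ₂ Θ : ℝ) : Prop where
  hL : Q.L = X.L
  wk : Wk Q μ K
  κ0 : 0 ≤ κ
  κκ : κ ≤ κ₂
  Θ0 : 0 ≤ Θ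
  noj : ∀ x s, μ s ≠ 0 → x ∈ Lft X.toFuchs κ → x * s ∉ Rgt X.toFuchs κ
  pos : ∀ a ∈ Pos X.toFuchs Θ, ∀ x, x ∉ Lft X.toFuchs κ → a * x ∈ Rgt X.toFuchs κ
  pos₂ : ∀ a ∈ Pos X.toFuchs Θ, ∀ x, x ∉ Rgt X.toFuchs κ₂ → a⁻¹ * x ∈ Lft X.toFuchs κ₂
  low : ∀ z ∈ Lft X.toFuchs κ₂, ∃ c C₁ : ℝ, 0 < c ∧ 0 ≤ C₁ ∧ ∀ u ∈ Lft X.toFuchs κ₂,
    ENNReal.ofReal (c * Real.exp (-C₁ * Q.d z u)) ≤ Gr μ (Lft X.toFuchs κ) u z ∧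
    ENNReal.ofReal (c * Real.exp (-C₁ * Q.d z u)) ≤ Gr μ (Lft X.toFuchs κ) z u
  dich : ∀ z ∈ Lft X.toFuchs κ₂, ∃ c C₁ : ℝ, 0 < c ∧ 0 ≤ C₁ ∧ ∀ v, v ∉ Rgt X.toFuchs κ →
    Gr μ (Lft X.toFuchs κ) z v ≠ 0 →
    ENNReal.ofReal (c * Real.exp (-C₁ * Q.d z v)) ≤ Gr μ (Lft X.toFuchs κ) z v
  far : ∃ C₇ : ℝ, ∀ u, u ∈ Lft X.toFuchs κ → u ∉ Lft X.toFuchs κ₂ →
    ∃ y ∈ Bnd X.toFuchs κ, Q.d u y ≤ C₇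
  aln : ∀ a ∈ Pos X.toFuchs Θ, ∃ C : ℝ, ∀ x ∈ Bnd X.toFuchs κ, ∀ y ∈ Bnd X.toFuchs κ,
    Q.L x + Q.L y ≤ Q.L (x⁻¹ * (a * y)) + C

end Walls

def ST_NOJ : Prop := ∀ {Γ : Type} [Group Γ] (X : Fuchs Γ) (κ K : ℝ), 0 ≤ κ →
  Real.cosh K ≤ 1 + 2 * κ ^ 2 → ∀ x s, X.L s ≤ K → x ∈ Lft X κ → x * s ∉ Rgt X κ

def ST_POSG : Prop := ∀ {Γ : Type} [Group Γ] (X : Fuchs Γ) (κ Θ : ℝ), 0 ≤ κ → 0 < Θ →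
  2 * κ * (κ + 1) ≤ Θ → ∀ a ∈ Pos X Θ,
    (∀ x, x ∉ Lft X κ → a * x ∈ Rgt X κ) ∧ (∀ x, x ∉ Rgt X κ → a⁻¹ * x ∈ Lft X κ)

/-- `Pos` is a semigroup, invariant under conjugation by `c` -/
def ST_SEMI : Prop := ∀ {Γ : Type} [Group Γ] (X : NFuchs Γ) (Θ : ℝ), 0 ≤ Θ →
  (∀ a ∈ Pos X.toFuchs Θ, ∀ b ∈ Pos X.toFuchs Θ, a * b ∈ Pos X.toFuchs Θ) ∧
  (∀ a ∈ Pos X.toFuchs Θ, ∀ k : ℤ, X.c ^ k * a * X.c ^ (-k) ∈ Pos X.toFuchs Θ)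

/-- the sectors are invariant under `c` -/
def ST_CINV : Prop := ∀ {Γ : Type} [Group Γ] (X : NFuchs Γ) (κ : ℝ) (k : ℤ) (x : Γ),
  (X.M (X.c ^ k * x) • (I : ℍ)).im = (X.lam ^ 2) ^ k * (X.M x • (I : ℍ)).im ∧
  (X.M (X.c ^ k * x) • (I : ℍ)).re = (X.lam ^ 2) ^ k * (X.M x • (I : ℍ)).re ∧
  (X.c ^ k * x ∈ Lft X.toFuchs κ ↔ x ∈ Lft X.toFuchs κ) ∧
  (X.c ^ k * x ∈ Rgt X.toFuchs κ ↔ x ∈ Rgt X.toFuchs κ) ∧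
  (X.c ^ k * x ∈ Bnd X.toFuchs κ ↔ x ∈ Bnd X.toFuchs κ)

def ST_ALN : Prop := ∀ {Γ : Type} [Group Γ] (X : Fuchs Γ) (κ Θ : ℝ), 0 ≤ κ → 0 ≤ Θ →
  ∀ a ∈ Pos X Θ, ∃ C : ℝ, ∀ x ∈ Bnd X κ, ∀ y ∈ Bnd X κ, X.L x + X.L y ≤ X.L (x⁻¹ * (a * y)) + C

def ST_DEEP : Prop := ∀ (κ r : ℝ), 0 ≤ κ → 0 ≤ r →
  ∃ κ₂ : ℝ, κ ≤ κ₂ ∧ ∀ (z w : ℍ), dist z w ≤ r → z.re < -κ₂ * z.im → w.re < -κ * w.im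

def ST_CHN : Prop := ∀ {Γ : Type} [Group Γ] (X : Fuchs Γ) (Q : Geo Γ) (μ : PMF Γ) (K κ : ℝ),
  Q.L = X.L → Wk Q μ K → 0 ≤ κ → ∃ κ₂ : ℝ, κ ≤ κ₂ ∧
  ∀ z ∈ Lft X κ₂, ∃ c C₁ : ℝ, 0 < c ∧ 0 ≤ C₁ ∧ ∀ u ∈ Lft X κ₂,
    ENNReal.ofReal (c * Real.exp (-C₁ * Q.d z u)) ≤ Gr μ (Lft X κ) u z ∧
    ENNReal.ofReal (c * Real.exp (-C₁ * Q.d z u)) ≤ Gr μ (Lft X κ) z u

def ST_DICH : Prop := ∀ {Γ : Type} [Group Γ] (X : NFuchs Γ) (Q : Geo Γ) (μ : PMF Γ)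
  (K κ κ₂ : ℝ), Q.L = X.L → Wk Q μ K → 0 ≤ κ → κ ≤ κ₂ →
  (∀ z ∈ Lft X.toFuchs κ₂, ∃ c C₁ : ℝ, 0 < c ∧ 0 ≤ C₁ ∧ ∀ u ∈ Lft X.toFuchs κ₂,
    ENNReal.ofReal (c * Real.exp (-C₁ * Q.d z u)) ≤ Gr μ (Lft X.toFuchs κ) u z ∧
    ENNReal.ofReal (c * Real.exp (-C₁ * Q.d z u)) ≤ Gr μ (Lft X.toFuchs κ) z u) →
  ∀ z ∈ Lft X.toFuchs κ₂, ∃ c C₁ : ℝ, 0 < c ∧ 0 ≤ C₁ ∧ ∀ v, v ∉ Rgt X.toFuchs κ →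
    Gr μ (Lft X.toFuchs κ) z v ≠ 0 →
    ENNReal.ofReal (c * Real.exp (-C₁ * Q.d z v)) ≤ Gr μ (Lft X.toFuchs κ) z v

def ST_FAR : Prop := ∀ {Γ : Type} [Group Γ] (X : Fuchs Γ) (R κ κ₂ : ℝ), 0 ≤ R →
  (∀ z : ℍ, ∃ g, dist z (X.M g • (I : ℍ)) ≤ R) → 2 * Real.sinh (R / 2) * Real.exp (R / 2) ≤ κ →
  κ ≤ κ₂ → ∃ C₇ : ℝ, ∀ u, u ∈ Lft X κ → u ∉ Lft X κ₂ → ∃ y ∈ Bnd X κ, X.L (u⁻¹ * y) ≤ C₇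

def ST_DOM : Prop := ∀ {Γ : Type} [Group Γ] (X : NFuchs Γ) (Q : Geo Γ) (μ : PMF Γ) (K : ℝ),
  Q.L = X.L → Wk Q μ K → ∃ κ κ₂ Θ : ℝ, Dom X Q μ K κ κ₂ Θ

def ST_KILL : Prop := ∀ {Γ : Type} [Group Γ] (X : NFuchs Γ) (Q : Geo Γ) (μ : PMF Γ)
  (K κ κ₂ Θ : ℝ), Dom X Q μ K κ κ₂ Θ → ∀ a ∈ Pos X.toFuchs Θ, ∃ C' : ℝ,
  ∀ x ∈ Bnd X.toFuchs κ, ∀ y ∈ Bnd X.toFuchs κ,
    Gr μ (Lft X.toFuchs κ) (a⁻¹ * x) y ≤ ENNReal.ofReal C' *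
      (Gr μ (Lft X.toFuchs κ) (a⁻¹ * x) a⁻¹ * Gr μ (Lft X.toFuchs κ) a⁻¹ y)

/-- rank-one comparability of a kernel -/
def Cmp {ι : Type} (A : ι → ι → ℝ) : Prop := ∃ (α β : ι → ℝ) (C : ℝ), 1 ≤ C ∧
  (∀ x, 0 < α x ∧ α x ≤ C) ∧ (∀ y, 0 ≤ β y) ∧ Summable β ∧ (∃ y, 0 < β y) ∧
  ∀ x y, α x * β y ≤ C * A x y ∧ A x y ≤ C * (α x * β y)

def ST_CMP : Prop := ∀ {Γ : Type} [Group Γ] (X : NFuchs Γ) (Q : Geo Γ) (μ : PMF Γ)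
  (K κ κ₂ Θ : ℝ), Dom X Q μ K κ κ₂ Θ → ∀ a ∈ Pos X.toFuchs Θ, Cmp (kr X.toFuchs μ κ a)

def ST_MULT : Prop := ∀ {Γ : Type} [Group Γ] (X : NFuchs Γ) (Q : Geo Γ) (μ : PMF Γ)
  (K κ κ₂ Θ : ℝ), Dom X Q μ K κ κ₂ Θ → ∀ a ∈ Pos X.toFuchs Θ,
  (∀ b ∈ Pos X.toFuchs Θ, ∀ x z : Bnd X.toFuchs κ,
    HasSum (fun y => kr X.toFuchs μ κ a x y * kr X.toFuchs μ κ b y z)
      (kr X.toFuchs μ κ (a * b) x z)) ∧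
  (∀ (x : Bnd X.toFuchs κ), (x : Γ) = 1 →
    HasSum (fun z : Bnd X.toFuchs κ => kr X.toFuchs μ κ a x z * (Gr μ Set.univ (z : Γ) 1).toReal)
      (Gr μ Set.univ 1 a).toReal)

def ST_SHIFT : Prop := ∀ {Γ : Type} [Group Γ] (X : NFuchs Γ) (μ : PMF Γ) (κ : ℝ) (a : Γ) (k : ℤ)
  (x y x' y' : Bnd X.toFuchs κ), (x' : Γ) = X.c ^ k * x → (y' : Γ) = X.c ^ k * y →
  kr X.toFuchs μ κ (X.c ^ k * a * X.c ^ (-k)) x' y' = kr X.toFuchs μ κ a x y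

/-! ### Perron–Frobenius -/

/-- Perron–Frobenius data of a sequence `A n` (= `n`-th power) of kernels -/
structure PFD {ι : Type} (A : ℕ → ι → ι → ℝ) (ρ : ℝ) (v w : ι → ℝ) : Prop where
  ρpos : 0 < ρ
  vpos : ∀ x, 0 < v x
  vbd : ∃ C : ℝ, ∀ x, v x ≤ C
  wnn : ∀ x, 0 ≤ w x
  wsum : Summable w
  nrm : ∑' x, w x * v x = 1
  asy : ∃ C θ : ℝ, 0 ≤ C ∧ 0 ≤ θ ∧ θ < 1 ∧ ∀ n, 1 ≤ n → ∀ x y,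
    |A n x y - ρ ^ n * (v x * w y)| ≤ C * θ ^ n * (ρ ^ n * (v x * w y))

def ST_PF : Prop := ∀ (ι : Type) (A : ℕ → ι → ι → ℝ), Cmp (A 1) →
  (∀ m n, 1 ≤ m → 1 ≤ n → ∀ x z, HasSum (fun y => A m x y * A n y z) (A (m + n) x z)) →
  ∃ ρ v w, PFD A ρ v w

/-- pairing -/
noncomputable def pr {ι : Type} (w v : ι → ℝ) : ℝ := ∑' x, w x * v x

def ST_EIG3 : Prop := ∀ (ι : Type) (A₁ A₂ A₃ : ℕ → ι → ι → ℝ) (ρ₁ ρ₂ ρ₃ : ℝ)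
  (v₁ w₁ v₂ w₂ v₃ w₃ : ι → ℝ), PFD A₁ ρ₁ v₁ w₁ → PFD A₂ ρ₂ v₂ w₂ → PFD A₃ ρ₃ v₃ w₃ →
  ∀ (r : ℕ → ℝ) (B E : ℕ → ℕ → ι → ι → ℝ),
  -- `E n 1 = A₁ n A₂ n`, `B n 1 = A₁ n A₂ n A₃ n`, `B n m` = `m`-th power of `B n 1`
  (∀ n, 1 ≤ n → ∀ x z, HasSum (fun y => A₁ n x y * A₂ n y z) (E n 1 x z)) →
  (∀ n, 1 ≤ n → ∀ x z, HasSum (fun y => E n 1 x y * A₃ n y z) (B n 1 x z)) →
  (∀ n, 1 ≤ n → ∀ m, 1 ≤ m → ∀ x z, HasSum (fun y => B n 1 x y * B n m y z) (B n (m + 1) x z)) →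
  (∀ n, 1 ≤ n → ∃ v w, PFD (B n) (r n) v w) →
  Tendsto (fun n => r n / (ρ₁ * ρ₂ * ρ₃) ^ n) atTop (𝓝 (pr w₁ v₂ * pr w₂ v₃ * pr w₃ v₁))

def ST_RHO : Prop := ∀ {Γ : Type} [Group Γ] (X : NFuchs Γ) (Q : Geo Γ) (μ : PMF Γ)
  (K κ κ₂ Θ : ℝ), Dom X Q μ K κ κ₂ Θ → (∃ C' : ℝ, ∀ g, |uu Q (Fh μ) g| ≤ C') →
  ∀ a ∈ Pos X.toFuchs Θ, ∀ (ρ : ℝ) (v w : Bnd X.toFuchs κ → ℝ),
    PFD (fun n => kr X.toFuchs μ κ (a ^ n)) ρ v w → ρ = ((lamb (X.M a))⁻¹) ^ 2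

/-! ### Fixed points -/

/-- attracting fixed point of a matrix with positive entries -/
noncomputable def xi (A : SL(2, ℝ)) : ℝ :=
  ((A.1 0 0 - A.1 1 1) + √((A.1 0 0 + A.1 1 1) ^ 2 - 4)) / (2 * A.1 1 0)

/-- repelling fixed point of a matrix with positive entries -/
noncomputable def et (A : SL(2, ℝ)) : ℝ :=
  ((A.1 0 0 - A.1 1 1) - √((A.1 0 0 + A.1 1 1) ^ 2 - 4)) / (2 * A.1 1 0)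

def ST_TRC : Prop := ∀ A B C : SL(2, ℝ), (∀ i j, 0 < A.1 i j) → (∀ i j, 0 < B.1 i j) →
  (∀ i j, 0 < C.1 i j) →
  Tendsto (fun n : ℕ => lamb (A ^ n * B ^ n * C ^ n) / (lamb A * lamb B * lamb C) ^ n) atTop
    (𝓝 ((xi B - et A) * (xi C - et B) * (xi A - et C) /
      ((xi A - et A) * (xi B - et B) * (xi C - et C))))

section Fix

variable {Γ : Type} [Group Γ]

open Classical in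
/-- the representative with positive `(0,0)` entry of `M a` -/
noncomputable def pm (X : Fuchs Γ) (a : Γ) : SL(2, ℝ) := if 0 < (X.M a).1 0 0 then X.M a else -X.M a

/-- attracting fixed point of `a ∈ Pos` -/
noncomputable def xiG (X : Fuchs Γ) (a : Γ) : ℝ := xi (pm X a)

/-- repelling fixed point of `a ∈ Pos` -/
noncomputable def etG (X : Fuchs Γ) (a : Γ) : ℝ := et (pm X a)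

end Fix

/-- elementary facts on fixed points of elements of `Pos` -/
def ST_FIX : Prop := ∀ {Γ : Type} [Group Γ] (X : NFuchs Γ) (Θ : ℝ), 0 ≤ Θ →
  ∀ a ∈ Pos X.toFuchs Θ, 0 < xiG X.toFuchs a ∧ etG X.toFuchs a < 0 ∧
  (∀ k : ℤ, xiG X.toFuchs (X.c ^ k * a * X.c ^ (-k)) = (X.lam ^ 2) ^ k * xiG X.toFuchs a ∧
    etG X.toFuchs (X.c ^ k * a * X.c ^ (-k)) = (X.lam ^ 2) ^ k * etG X.toFuchs a) ∧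
  (∀ n : ℕ, 1 ≤ n → a ^ n ∈ Pos X.toFuchs Θ)

def ST_CYC : Prop := ∀ {Γ : Type} [Group Γ] (X : NFuchs Γ) (Q : Geo Γ) (μ : PMF Γ)
  (K κ κ₂ Θ : ℝ), Dom X Q μ K κ κ₂ Θ → (∃ C' : ℝ, ∀ g, |uu Q (Fh μ) g| ≤ C') →
  ∀ a ∈ Pos X.toFuchs Θ, ∀ b ∈ Pos X.toFuchs Θ, ∀ c ∈ Pos X.toFuchs Θ,
  ∀ (ρa ρb ρc : ℝ) (va wa vb wb vc wc : Bnd X.toFuchs κ → ℝ),
    PFD (fun n => kr X.toFuchs μ κ (a ^ n)) ρa va wa →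
    PFD (fun n => kr X.toFuchs μ κ (b ^ n)) ρb vb wb →
    PFD (fun n => kr X.toFuchs μ κ (c ^ n)) ρc vc wc →
    pr wa vb * pr wb vc * pr wc va *
      ((xiG X.toFuchs b - etG X.toFuchs a) * (xiG X.toFuchs c - etG X.toFuchs b) *
        (xiG X.toFuchs a - etG X.toFuchs c)) ^ 2 =
      ((xiG X.toFuchs a - etG X.toFuchs a) * (xiG X.toFuchs b - etG X.toFuchs b) *
        (xiG X.toFuchs c - etG X.toFuchs c)) ^ 2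

/-! ### Rank one identity and finite rank -/

def ST_RNK : Prop := ∀ (A : Type) (_ : Nonempty A) (T : A → A → ℤ → ℝ) (ξ η : A → ℝ) (Λ : ℝ),
  1 < Λ → (∀ a, 0 < ξ a) → (∀ a, η a < 0) → (∀ a b k, 0 < T a b k) →
  (∀ (a b c : A) (k l m : ℤ), T a b (k - l) * T b c (l - m) * T c a (m - k) *
      ((Λ ^ l * ξ b - Λ ^ k * η a) * (Λ ^ m * ξ c - Λ ^ l * η b) *
        (Λ ^ k * ξ a - Λ ^ m * η c)) ^ 2 =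
      ((Λ ^ k * ξ a - Λ ^ k * η a) * (Λ ^ l * ξ b - Λ ^ l * η b) *
        (Λ ^ m * ξ c - Λ ^ m * η c)) ^ 2) →
  ∃ (q : ℝ) (P R : A → ℝ), 0 < q ∧ (∀ a, 0 < P a) ∧ (∀ b, 0 < R b) ∧
    ∀ a b k, T a b k * (ξ b - Λ ^ k * η a) ^ 2 = P a * q ^ k * R b

/-- `κ(u) = e^u/(1+e^u)² = 1/(4 cosh²(u/2))` -/
noncomputable def kap (u : ℝ) : ℝ := Real.exp u / (1 + Real.exp u) ^ 2

/-- its periodization -/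
noncomputable def kper (ℓ u : ℝ) : ℝ := ∑' k : ℤ, kap (u + k * ℓ)

def ST_SUMM : Prop := ∀ (ι : Type) (sh : ℤ → ι → ι), (∀ x, sh 0 x = x) →
  (∀ k l x, sh (k + l) x = sh k (sh l x)) → (∀ k x, sh k x = x → k = 0) →
  (∃ T : Finset ι, ∀ x, ∃ t ∈ T, ∃ k, x = sh k t) →
  ∀ (A : Type) (w v : A → ι → ℝ) (ξ η P R : A → ℝ) (Λ q : ℝ), 1 < Λ → 0 < q →
  (∀ a, 0 < ξ a) → (∀ a, η a < 0) → (∀ a, 0 < P a) → (∀ a, 0 < R a) →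
  (∀ a x, 0 ≤ w a x) → (∀ a x, 0 ≤ v a x) →
  (∀ a b k, Summable fun x => w a (sh (-k) x) * v b x) →
  (∀ a b k, (∑' x, w a (sh (-k) x) * v b x) * (ξ b - Λ ^ k * η a) ^ 2 = P a * q ^ k * R b) →
  ∃ (m : ℕ) (W V : Fin m → A → ℝ), ∀ a b,
    kper (Real.log Λ) (Real.log (-η a) - Real.log (ξ b)) = ∑ l, W l a * V l b

/-- the wall has finitely many orbits under `c`, which acts freely -/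
def ST_FORB : Prop := ∀ {Γ : Type} [Group Γ] (X : NFuchs Γ) (κ : ℝ), 0 ≤ κ →
  (∃ T : Finset Γ, (∀ t ∈ T, t ∈ Bnd X.toFuchs κ) ∧ ∀ x ∈ Bnd X.toFuchs κ, ∃ t ∈ T, ∃ k : ℤ,
    x = X.c ^ k * t) ∧ ∀ (k : ℤ) (x : Γ), X.c ^ k * x = x → k = 0

def ST_DEN : Prop := ∀ {Γ : Type} [Group Γ] (X : NFuchs Γ) (Θ : ℝ), 0 ≤ Θ →
  Dense {s : ℝ | ∃ a ∈ Pos X.toFuchs Θ, s = Real.log (xiG X.toFuchs a)} ∧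
  Dense {s : ℝ | ∃ a ∈ Pos X.toFuchs Θ, s = Real.log (-etG X.toFuchs a)}

def ST_KCONT : Prop := ∀ ℓ : ℝ, 0 < ℓ → Continuous (kper ℓ) ∧ ∀ u, kper ℓ (u + ℓ) = kper ℓ u

def ST_FC : Prop := ∀ ℓ : ℝ, 0 < ℓ → ∀ j : ℤ,
  ∫ u in (0 : ℝ)..ℓ, (kper ℓ u : ℂ) * Complex.exp (-2 * π * Complex.I * j * u / ℓ) ≠ 0

def ST_KPER : Prop := ∀ ℓ : ℝ, 0 < ℓ → ∀ (m : ℕ) (A : Type) (σ τ : A → ℝ),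
  Dense (Set.range σ) → Dense (Set.range τ) → ∀ W V : Fin m → A → ℝ,
  ¬ ∀ a b, kper ℓ (σ a - τ b) = ∑ l, W l a * V l b

/-- part (A): a bounded `u` is impossible -/
def ST_AFIN : Prop := ∀ {Γ : Type} [Group Γ] (X : NFuchs Γ) (Q : Geo Γ) (μ : PMF Γ) (K : ℝ),
  Q.L = X.L → Wk Q μ K → ¬ ∃ C' : ℝ, ∀ g, |uu Q (Fh μ) g| ≤ C'

/-! ## 5. Probability and the theorem -/

section Prob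

variable {Γ : Type} [Group Γ]

/-- the position `w_n = g_1 ⋯ g_n` of the random walk with increments `ω 0 = g_1, ω 1 = g_2, …` -/
def wpos (ω : ℕ → Γ) : ℕ → Γ
  | 0 => 1
  | n + 1 => wpos ω n * ω n

/-- law of the sequence of i.i.d. increments -/
noncomputable def law (μ : PMF Γ) : @MeasureTheory.Measure (ℕ → Γ) (@MeasurableSpace.pi ℕ (fun _ => Γ) fun _ => ⊤) :=
  letI : MeasurableSpace Γ := ⊤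
  MeasureTheory.Measure.infinitePi (fun _ : ℕ => μ.toMeasure)

/-- the Green metric `d_μ(x,y) = -log P(∃ n, w_n x = y)` -/
noncomputable def dgreen (μ : PMF Γ) (x y : Γ) : ℝ :=
  -Real.log ((law μ {ω | ∃ n, wpos ω n * x = y}).toReal)

/-- hyperbolic length of the closed geodesic in the class of `g` -/
noncomputable def hlen (X : Fuchs Γ) (g : Γ) : ℝ := ⨅ z : ℍ, dist z (X.M g • z)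

end Prob

def ST_HIT : Prop := ∀ {Γ : Type} [Group Γ] [Countable Γ] (μ : PMF Γ), Adm μ →
  Gr μ Set.univ 1 1 ≠ ∞ → ∀ g, (law μ {ω | ∃ n, wpos ω n = g}).toReal = Fh μ g

/-- **The theorem**: for every cocompact Fuchsian `X` and every admissible `μ`, the stable length
`ℓ` of the Green metric exists and its symmetrization is not the hyperbolic length function. -/
def ST_FINAL : Prop := ∀ {Γ : Type} [Group Γ] (X : Fuchs Γ) (μ : PMF Γ), Adm μ →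
  ∃ ℓ : Γ → ℝ,
    (∀ g x : Γ, Tendsto (fun n : ℕ => dgreen μ x (g ^ n * x) / n) atTop (𝓝 (ℓ g))) ∧
    ∃ g : Γ, g ≠ 1 ∧ (ℓ g + ℓ g⁻¹) / 2 ≠ hlen X g

end Pool.Agent.Helper12.GM
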