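import Pool.Agent.Helper1.GM.CYC
import Pool.Agent.Helper1.GM.DOM
import Pool.Agent.Helper1.GM.EIG3
import Pool.Agent.Helper11.GM.FORB
import Pool.Agent.Helper12.GM.AFIN
import Pool.Agent.Helper12.GM.BFIN
import Pool.Agent.Helper12.GM.CONN
import Pool.Agent.Helper12.GM.FINAL
import Pool.Agent.Helper16.GM.MULT
import Pool.Agent.Helper16.GM.RHO
import Pool.Agent.Helper18.GM.NOJ
import Pool.Agent.Helper19.GM.TAU
import Pool.Agent.Helper19.GM.TRC
import Pool.Agent.Helper27.GM.GAPA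
import Pool.Agent.Helper27.GM.HIT
import Pool.Agent.Helper30.GM.AVOID
import Pool.Agent.Helper34.GM.GEO
import Pool.Agent.Helper34.GM.SHIFT
import Pool.Agent.Helper34.GM.UPPER
import Pool.Agent.Helper38.GM.LOWER
import Pool.Agent.Helper41.GM.FC
import Pool.Agent.Helper41.GM.KCONT
import Pool.Agent.Helper41.GM.KPER
import Pool.Agent.Helper41.GM.SUMM
import Pool.Agent.Helper44.GM.CONE
import Pool.Agent.Helper44.GM.LOGL
import Pool.Agent.Helper49.GM.IRR
import Pool.Agent.Helper50.GM.CHN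
import Pool.Agent.Helper55.GM.OCC
import Pool.Agent.Helper55.GM.PAR
import Pool.Agent.Helper56.GM.TLEN
import Pool.Agent.Helper57.GM.NF
import Pool.Agent.Helper59.GM.HARN
import Pool.Agent.Helper59.GM.HLOW
import Pool.Agent.Helper64.GM.CNT
import Pool.Agent.Helper64.GM.DEN
import Pool.Agent.Helper66.GM.FIX
import Pool.Agent.Helper66.GM.RNK
import Pool.Agent.Helper66.GM.SEMI
import Pool.Agent.Helper67.GM.SHELL
import Pool.Agent.Helper76.GM.CINV
import Pool.Agent.Helper76.GM.FIB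
import Pool.Agent.Helper76.GM.POSG
import Pool.Agent.Helper78.GM.ALN
import Pool.Agent.Helper78.GM.FOUR
import Pool.Agent.Helper78.GM.L2G
import Pool.Agent.Helper78.GM.LIN
import Pool.Agent.Helper78.GM.QADD
import Pool.Agent.Helper79.GM.GAPB
import Pool.Agent.Helper81.GM.CMP
import Pool.Agent.Helper90.GM.ANC
import Pool.Agent.Helper90.GM.GFM
import Pool.Agent.Helper90.GM.LAZY
import Pool.Agent.Helper91.GM.KA
import Pool.Agent.Helper95.GM.PF
import Pool.Agent.Helper96.GM.DICH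
import Pool.Agent.Helper96.GM.KILL
import Pool.Agent.Helper96.GM.ZFIN

namespace Pool.Agent.Helper12.GM

theorem main_of (hCONN : ST_CONN) : ST_FINAL := by
  have hGAPA : ST_GAPA := st_GAPA
  have hLAZY : ST_LAZY := st_LAZY
  have hMULT : ST_MULT := st_MULT
  have hRHO : ST_RHO := st_RHO hMULT st_TAU
  have hNF : ST_NF := st_NF
  have hHIT : ST_HIT := st_HIT
  have hGAPB : ST_GAPB := st_GAPB
  have hAVOID : ST_AVOID := st_AVOID st_LOGL
  have hKA : ST_KA := st_KA hAVOID
  have hCINV : ST_CINV := st_CINV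
  have hFORB : ST_FORB := st_FORB hCINV
  have hKILL : ST_KILL := st_KILL hKA st_CONE
  have hCMP : ST_CMP := st_CMP hKILL
  have hANC : ST_ANC := st_ANC hKA st_CONE (st_HLOW st_HARN)
  have hGFM : ST_GFM := st_GFM hANC st_ZFIN (st_HLOW st_HARN)
  have hPAR : ST_PAR := st_PAR st_IRR
  have hFIX : ST_FIX := st_FIX st_SEMI
  have hCHN : ST_CHN := st_CHN st_DEEP st_HARN
  have hDICH : ST_DICH := st_DICH hCINV hFORB
  have hDOM : ST_DOM := st_DOM st_NOJ st_POSG hCHN hDICH st_FAR st_ALN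
  have hCYC : ST_CYC := st_CYC st_EIG3 hRHO st_TRC hMULT hCMP st_PF hFIX st_SEMI
  have hKPER : ST_KPER := st_KPER st_KCONT st_FC
  have hA : ST_AFIN := st_AFIN hDOM hCMP hMULT st_PF hFIX (st_DEN hCONN) (st_SHIFT hCINV) hCINV
    st_SEMI hCYC st_RNK st_SUMM hFORB hKPER
  have hB : ST_BFIN := st_BFIN (st_SYM st_L2G) (st_LIN st_L2G)
    (st_CNT st_OCC st_FIB st_QADD st_SHELL)
  have hGEO : ST_GEO := st_GEO st_FOUR st_GEODH st_NORM st_UPPER st_LOWER hCONN
  have hF : ST_FINAL := @st_FINAL hNF hGEO st_TAU st_TLEN hPAR hGAPA hGAPB hGFM hLAZY hB hA hHIT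
  exact @hF

/-- the theorem, in the internal form -/
theorem main_final : ST_FINAL := main_of (st_CONN st_IRR)

end Pool.Agent.Helper12.GM
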